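import Mathlib

/-!
# A quasinilpotent operator `T` with `1 + T` hypercyclic and `exp T` not hypercyclic

The operator is (up to normalisation) `T = d/dt` on a space of smooth functions `φ`, encoded by the
double sequences `(j, m) ↦ φ^(j) (m)`, `j, m ∈ ℕ`, normed by `sup |φ^(j) (m)| / w j` where
`w j = inf_i A_i δ_i ^ j` and `δ_i → 0`; thus `T` is quasinilpotent and `exp T` is the translation by
one, a contraction.  The constants `A_i` and a hypercyclic vector for `1 + T` are produced by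
successive approximation with exponential sums `∑ c_μ exp (μ t)`, `Re μ < 0`, `|μ| < δ_k`; the point
is that (identity theorem + Hahn–Banach) the exponentials with `μ` in an arbitrary nonempty open
subset of the half disc `{|μ| < δ, Re μ < 0}` span a dense subspace of the span of all of them.
-/

open scoped BoundedContinuousFunction Topology
open Filter

namespace Pool.Agent.Results.MP_2949c4_an.ExpCounterexample

/-- `S` is hypercyclic: some orbit is dense. -/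
def IsHypercyclic {X : Type*} [NormedAddCommGroup X] [NormedSpace ℂ X] (S : X →L[ℂ] X) : Prop :=
  ∃ x : X, Dense (Set.range fun n : ℕ => (S ^ n) x)


/-- bounded double sequences with the supremum norm -/
abbrev E : Type := (ℕ × ℕ) →ᵇ ℂ

/-- the vector `(j,m) ↦ a ^ j * b ^ m` (zero outside the closed unit polydisc) -/
noncomputable def ev (a b : ℂ) : E :=
  open Classical in
  if h : ‖a‖ ≤ 1 ∧ ‖b‖ ≤ 1 then
    BoundedContinuousFunction.ofNormedAddCommGroupDiscrete (fun p : ℕ × ℕ => a ^ p.1 * b ^ p.2) 1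
      (by
        intro p
        rw [norm_mul, norm_pow, norm_pow]
        exact mul_le_one₀ (pow_le_one₀ (norm_nonneg _) h.1) (by positivity)
          (pow_le_one₀ (norm_nonneg _) h.2))
  else 0

theorem ev_apply {a b : ℂ} (ha : ‖a‖ ≤ 1) (hb : ‖b‖ ≤ 1) (p : ℕ × ℕ) :
    ev a b p = a ^ p.1 * b ^ p.2 := by
  unfold ev
  rw [dif_pos ⟨ha, hb⟩]
  rfl

/-- unit vectors -/
noncomputable def unitv (p : ℕ × ℕ) : E :=
  BoundedContinuousFunction.ofNormedAddCommGroupDiscrete (fun q : ℕ × ℕ => if q = p then 1 else 0) 1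
    (by
      intro q
      split_ifs <;> simp)

theorem unitv_apply (p q : ℕ × ℕ) : unitv p q = if q = p then 1 else 0 := rfl

theorem norm_unitv_le (p : ℕ × ℕ) : ‖unitv p‖ ≤ 1 := by
  rw [BoundedContinuousFunction.norm_le zero_le_one]
  intro q
  rw [unitv_apply]
  split_ifs <;> simp

/-- evaluation as a continuous linear map -/
noncomputable def evalL (p : ℕ × ℕ) : E →L[ℂ] ℂ :=
  BoundedContinuousFunction.evalCLM ℂ p

theorem evalL_apply (p : ℕ × ℕ) (x : E) : evalL p x = x p := rfl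

theorem ev_eq_tsum {a b : ℂ} (ha : ‖a‖ < 1) (hb : ‖b‖ < 1) :
    ev a b = ∑' p : ℕ × ℕ, (a ^ p.1 * b ^ p.2) • unitv p := by
  have hs : Summable fun p : ℕ × ℕ => (a ^ p.1 * b ^ p.2) • unitv p := by
    have h1 : Summable fun p : ℕ × ℕ => ‖a‖ ^ p.1 * ‖b‖ ^ p.2 :=
      (summable_geometric_of_lt_one (norm_nonneg _) ha).mul_of_nonneg
        (summable_geometric_of_lt_one (norm_nonneg _) hb) (fun _ => by positivity)
        (fun _ => by positivity)
    refine Summable.of_norm_bounded h1 fun p => ?_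
    rw [norm_smul, norm_mul, norm_pow, norm_pow]
    exact mul_le_of_le_one_right (by positivity) (norm_unitv_le p)
  ext q
  rw [← evalL_apply q (∑' p : ℕ × ℕ, (a ^ p.1 * b ^ p.2) • unitv p), (evalL q).map_tsum hs,
    ev_apply ha.le hb.le]
  rw [tsum_eq_single q]
  · rw [map_smul, evalL_apply, unitv_apply, if_pos rfl, smul_eq_mul, mul_one]
  · intro p hp
    rw [map_smul, evalL_apply, unitv_apply, if_neg (Ne.symm hp), smul_zero]

theorem differentiableAt_ev {Ω : Set ℂ} (hΩ : IsOpen Ω) {g h : ℂ → ℂ}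
    (hg : DifferentiableOn ℂ g Ω) (hh : DifferentiableOn ℂ h Ω)
    (hg1 : ∀ z ∈ Ω, ‖g z‖ < 1) (hh1 : ∀ z ∈ Ω, ‖h z‖ < 1) {z : ℂ} (hz : z ∈ Ω) :
    DifferentiableAt ℂ (fun w => ev (g w) (h w)) z := by
  obtain ⟨r1, hr1, hr1'⟩ := exists_between (hg1 z hz)
  obtain ⟨r2, hr2, hr2'⟩ := exists_between (hh1 z hz)
  have hgc : ContinuousOn (fun w => ‖g w‖) Ω := hg.continuousOn.norm
  have hhc : ContinuousOn (fun w => ‖h w‖) Ω := hh.continuousOn.norm
  set U : Set ℂ := {w ∈ Ω | ‖g w‖ < r1} ∩ {w ∈ Ω | ‖h w‖ < r2} with hU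
  have hUo : IsOpen U :=
    (hgc.isOpen_inter_preimage hΩ isOpen_Iio).inter (hhc.isOpen_inter_preimage hΩ isOpen_Iio)
  have hzU : z ∈ U := ⟨⟨hz, hr1⟩, ⟨hz, hr2⟩⟩
  have hUΩ : U ⊆ Ω := fun w hw => hw.1.1
  have h1 : DifferentiableOn ℂ (fun w => ∑' p : ℕ × ℕ, (g w ^ p.1 * h w ^ p.2) • unitv p) U := by
    have hs : Summable fun p : ℕ × ℕ => r1 ^ p.1 * r2 ^ p.2 := by
      have p1 : 0 ≤ r1 := (norm_nonneg _).trans hr1.le
      have p2 : 0 ≤ r2 := (norm_nonneg _).trans hr2.le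
      exact (summable_geometric_of_lt_one p1 hr1').mul_of_nonneg
        (summable_geometric_of_lt_one p2 hr2') (fun _ => by positivity)
        (fun _ => by positivity)
    refine Complex.differentiableOn_tsum_of_summable_norm hs ?_ hUo ?_
    · intro p
      exact (((hg.mono hUΩ).pow _).mul ((hh.mono hUΩ).pow _)).smul_const _
    · intro p w hw
      rw [norm_smul, norm_mul, norm_pow, norm_pow]
      have p1 : 0 ≤ r1 := (norm_nonneg _).trans hr1.le
      have p2 : 0 ≤ r2 := (norm_nonneg _).trans hr2.le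
      calc ‖g w‖ ^ p.1 * ‖h w‖ ^ p.2 * ‖unitv p‖ ≤ r1 ^ p.1 * r2 ^ p.2 * 1 := by
            gcongr
            · exact hw.1.2.le
            · exact hw.2.2.le
            · exact norm_unitv_le p
        _ = _ := mul_one _
  have h2 : DifferentiableAt ℂ (fun w => ∑' p : ℕ × ℕ, (g w ^ p.1 * h w ^ p.2) • unitv p) z :=
    (h1 z hzU).differentiableAt (hUo.mem_nhds hzU)
  refine h2.congr_of_eventuallyEq ?_
  filter_upwards [hUo.mem_nhds hzU] with w hw
  exact ev_eq_tsum (hg1 w (hUΩ hw)) (hh1 w (hUΩ hw))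

/-- Hahn–Banach: a point outside the closure of a subspace is detected by a functional. -/
theorem mem_closure_of_forall {F : Type*} [NormedAddCommGroup F] [NormedSpace ℂ F]
    (K : Submodule ℂ F) (x : F) (h : ∀ l : F →L[ℂ] ℂ, (∀ y ∈ K, l y = 0) → l x = 0) :
    x ∈ K.topologicalClosure := by
  by_contra hx
  have hcl : IsClosed (K.topologicalClosure : Set F) := K.isClosed_topologicalClosure
  have h1 : K.topologicalClosure.mkQL x ≠ 0 := by
    intro h0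
    apply hx
    rw [Submodule.mkQL_apply, Submodule.mkQ_apply, Submodule.Quotient.mk_eq_zero] at h0
    exact h0
  obtain ⟨g, hg1, hg2⟩ := exists_dual_vector ℂ (K.topologicalClosure.mkQL x) (norm_ne_zero_iff.2 h1)
  have h2 := h (g.comp K.topologicalClosure.mkQL) (by
    intro y hy
    have : K.topologicalClosure.mkQL y = 0 := by
      rw [Submodule.mkQL_apply, Submodule.mkQ_apply, Submodule.Quotient.mk_eq_zero]
      exact K.le_topologicalClosure hy
    rw [ContinuousLinearMap.comp_apply, this, map_zero])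
  rw [ContinuousLinearMap.comp_apply, hg2] at h2
  apply h1
  rw [← norm_eq_zero]
  exact Complex.ofReal_eq_zero.1 h2

/-- linear combinations of the vectors `(j,m) ↦ μ ^ j * h μ ^ m` -/
noncomputable def V (h : ℂ → ℂ) : (ℂ →₀ ℂ) →ₗ[ℂ] E :=
  Finsupp.linearCombination ℂ (fun μ => ev μ (h μ))

/-- weighted bound -/
def B (δ : ℝ) (x : E) (C : ℝ) : Prop := ∀ p : ℕ × ℕ, ‖x p‖ ≤ C * δ ^ p.1

theorem approx_single {Ω Λ : Set ℂ} {h : ℂ → ℂ} {δ : ℝ} (hδ0 : 0 < δ) (hδ1 : δ ≤ 1)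
    (hΩo : IsOpen Ω) (hΩc : IsPreconnected Ω) (hΩδ : ∀ z ∈ Ω, ‖z‖ < δ)
    (hh : DifferentiableOn ℂ h Ω) (hh1 : ∀ z ∈ Ω, ‖h z‖ < 1) (hΛo : IsOpen Λ) (hΛΩ : Λ ⊆ Ω)
    (hΛn : Λ.Nonempty) {z : ℂ} (hz : z ∈ Ω) {ε : ℝ} (hε : 0 < ε) :
    ∃ c ∈ Finsupp.supported ℂ ℂ Λ, B δ (ev z (h z) - V h c) ε := by
  have hδc : (δ : ℂ) ≠ 0 := by exact_mod_cast hδ0.ne'
  have hg : DifferentiableOn ℂ (fun w : ℂ => w / δ) Ω :=
    (differentiable_id.div_const _).differentiableOn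
  have hg1 : ∀ w ∈ Ω, ‖w / (δ : ℂ)‖ < 1 := by
    intro w hw
    rw [norm_div, Complex.norm_real, Real.norm_of_nonneg hδ0.le, div_lt_one hδ0]
    exact hΩδ w hw
  let v : ℂ → E := fun w => ev (w / δ) (h w)
  have hmem : v z ∈ (Submodule.span ℂ (v '' Λ)).topologicalClosure := by
    apply mem_closure_of_forall
    intro l hl
    have hd : DifferentiableOn ℂ (fun w => l (v w)) Ω := by
      intro w hw
      exact (l.differentiableAt.comp w
        (differentiableAt_ev hΩo hg hh hg1 hh1 hw)).differentiableWithinAt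
    have ha : AnalyticOnNhd ℂ (fun w => l (v w)) Ω := hd.analyticOnNhd hΩo
    obtain ⟨z0, hz0⟩ := hΛn
    have hev : (fun w => l (v w)) =ᶠ[𝓝 z0] 0 := by
      filter_upwards [hΛo.mem_nhds hz0] with w hw
      exact hl _ (Submodule.subset_span ⟨w, hw, rfl⟩)
    exact ha.eqOn_zero_of_preconnected_of_eventuallyEq_zero hΩc (hΛΩ hz0) hev hz
  obtain ⟨y, hy, hyd⟩ := Metric.mem_closure_iff.1 hmem ε hε
  obtain ⟨c, hc, hcy⟩ := (Finsupp.mem_span_image_iff_linearCombination ℂ).1 hy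
  refine ⟨c, hc, ?_⟩
  intro p
  have h1 : ‖(v z - y) p‖ ≤ ε := by
    refine ((v z - y).norm_coe_le_norm p).trans ?_
    rw [← dist_eq_norm]
    exact hyd.le
  have hz1 : ‖z‖ ≤ 1 := (hΩδ z hz).le.trans hδ1
  have h2 : (ev z (h z) - V h c) p = δ ^ p.1 * (v z - y) p := by
    rw [BoundedContinuousFunction.sub_apply, BoundedContinuousFunction.sub_apply,
      ev_apply hz1 (hh1 z hz).le, ev_apply (hg1 z hz).le (hh1 z hz).le, ← hcy]
    rw [← evalL_apply p (V h c), ← evalL_apply p (Finsupp.linearCombination ℂ v c)]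
    unfold V
    rw [Finsupp.linearCombination_apply, Finsupp.linearCombination_apply, Finsupp.sum,
      Finsupp.sum, map_sum, map_sum, mul_sub, Finset.mul_sum]
    congr 1
    · rw [div_pow]
      field_simp
    · apply Finset.sum_congr rfl
      intro μ hμ
      have hμΩ : μ ∈ Ω := hΛΩ (hc hμ)
      rw [map_smul, map_smul, evalL_apply, evalL_apply,
        ev_apply ((hΩδ μ hμΩ).le.trans hδ1) (hh1 μ hμΩ).le,
        ev_apply (hg1 μ hμΩ).le (hh1 μ hμΩ).le, div_pow]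
      simp only [smul_eq_mul]
      field_simp
  rw [h2, norm_mul, norm_pow, Complex.norm_real, Real.norm_of_nonneg hδ0.le, mul_comm]
  gcongr


theorem B.add {δ : ℝ} {x y : E} {C D : ℝ} (hx : B δ x C) (hy : B δ y D) : B δ (x + y) (C + D) := by
  intro p
  rw [BoundedContinuousFunction.add_apply, add_mul]
  exact (norm_add_le _ _).trans (add_le_add (hx p) (hy p))

theorem B.sub {δ : ℝ} {x y : E} {C D : ℝ} (hx : B δ x C) (hy : B δ y D) : B δ (x - y) (C + D) := by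
  intro p
  rw [BoundedContinuousFunction.sub_apply, add_mul]
  exact (norm_sub_le _ _).trans (add_le_add (hx p) (hy p))

theorem B.smul {δ : ℝ} {x : E} {C : ℝ} (a : ℂ) (hx : B δ x C) : B δ (a • x) (‖a‖ * C) := by
  intro p
  rw [BoundedContinuousFunction.coe_smul, norm_smul, mul_assoc]
  exact mul_le_mul_of_nonneg_left (hx p) (norm_nonneg _)

theorem B.mono {δ : ℝ} (hδ : 0 ≤ δ) {x : E} {C D : ℝ} (hx : B δ x C) (h : C ≤ D) : B δ x D := by
  intro p
  exact (hx p).trans (by gcongr)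

theorem B.mono_delta {δ δ' : ℝ} (hδ : 0 ≤ δ) (hδ' : δ ≤ δ') {x : E} {C : ℝ} (hC : 0 ≤ C)
    (hx : B δ x C) : B δ' x C := by
  intro p
  exact (hx p).trans (by gcongr)

theorem B.zero {δ : ℝ} (hδ : 0 ≤ δ) {C : ℝ} (hC : 0 ≤ C) : B δ 0 C := by
  intro p
  simp only [BoundedContinuousFunction.coe_zero, Pi.zero_apply, norm_zero]
  positivity

theorem B.nonneg {δ : ℝ} {x : E} {C : ℝ} (hx : B δ x C) : 0 ≤ C := by
  have := (norm_nonneg _).trans (hx (0, 0))
  simpa using this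

theorem B.norm_le {δ : ℝ} (hδ0 : 0 ≤ δ) (hδ1 : δ ≤ 1) {x : E} {C : ℝ} (hx : B δ x C) : ‖x‖ ≤ C := by
  rw [BoundedContinuousFunction.norm_le hx.nonneg]
  intro p
  refine (hx p).trans ?_
  exact mul_le_of_le_one_right hx.nonneg (pow_le_one₀ hδ0 hδ1)

/-- size of `V h c` -/
theorem B_V {Λ : Set ℂ} {h : ℂ → ℂ} {δ : ℝ} (hδ0 : 0 ≤ δ) (hδ1 : δ ≤ 1)
    (hΛδ : ∀ z ∈ Λ, ‖z‖ ≤ δ) (hh1 : ∀ z ∈ Λ, ‖h z‖ ≤ 1) {c : ℂ →₀ ℂ}
    (hc : c ∈ Finsupp.supported ℂ ℂ Λ) : B δ (V h c) (∑ μ ∈ c.support, ‖c μ‖) := by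
  intro p
  rw [← evalL_apply]
  unfold V
  rw [Finsupp.linearCombination_apply, Finsupp.sum, map_sum, Finset.sum_mul]
  refine (norm_sum_le _ _).trans (Finset.sum_le_sum fun μ hμ => ?_)
  have hμΛ : μ ∈ Λ := hc hμ
  rw [map_smul, norm_smul, evalL_apply, ev_apply ((hΛδ μ hμΛ).trans hδ1) (hh1 μ hμΛ), norm_mul,
    norm_pow, norm_pow]
  gcongr
  calc ‖μ‖ ^ p.1 * ‖h μ‖ ^ p.2 ≤ δ ^ p.1 * 1 := by
        gcongr
        · exact hΛδ μ hμΛ
        · exact pow_le_one₀ (norm_nonneg _) (hh1 μ hμΛ)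
    _ = _ := mul_one _

theorem approx {Ω Λ : Set ℂ} {h : ℂ → ℂ} {δ : ℝ} (hδ0 : 0 < δ) (hδ1 : δ ≤ 1)
    (hΩo : IsOpen Ω) (hΩc : IsPreconnected Ω) (hΩδ : ∀ z ∈ Ω, ‖z‖ < δ)
    (hh : DifferentiableOn ℂ h Ω) (hh1 : ∀ z ∈ Ω, ‖h z‖ < 1) (hΛo : IsOpen Λ) (hΛΩ : Λ ⊆ Ω)
    (hΛn : Λ.Nonempty) {c₀ : ℂ →₀ ℂ} (hc₀ : c₀ ∈ Finsupp.supported ℂ ℂ Ω) {ε : ℝ} (hε : 0 < ε) :
    ∃ c ∈ Finsupp.supported ℂ ℂ Λ, B δ (V h c₀ - V h c) ε := by
  classical
  set S : ℝ := ∑ μ ∈ c₀.support, ‖c₀ μ‖ + 1 with hS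
  have hS0 : 0 < S := by positivity
  have key : ∀ μ : ℂ, ∃ c : ℂ →₀ ℂ, μ ∈ Ω →
      c ∈ Finsupp.supported ℂ ℂ Λ ∧ B δ (ev μ (h μ) - V h c) (ε / S) := by
    intro μ
    by_cases hμ : μ ∈ Ω
    · obtain ⟨c, hc1, hc2⟩ := approx_single hδ0 hδ1 hΩo hΩc hΩδ hh hh1 hΛo hΛΩ hΛn hμ
        (div_pos hε hS0)
      exact ⟨c, fun _ => ⟨hc1, hc2⟩⟩
    · exact ⟨0, fun h => absurd h hμ⟩
  choose cc hcc using key
  refine ⟨∑ μ ∈ c₀.support, c₀ μ • cc μ, ?_, ?_⟩
  · exact Submodule.sum_mem _ fun μ hμ => Submodule.smul_mem _ _ (hcc μ (hc₀ hμ)).1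
  · have h1 : V h c₀ - V h (∑ μ ∈ c₀.support, c₀ μ • cc μ) =
        ∑ μ ∈ c₀.support, c₀ μ • (ev μ (h μ) - V h (cc μ)) := by
      rw [map_sum]
      simp_rw [smul_sub, map_smul]
      rw [Finset.sum_sub_distrib]
      congr 1
    rw [h1]
    intro p
    rw [← evalL_apply, map_sum]
    calc ‖∑ μ ∈ c₀.support, evalL p (c₀ μ • (ev μ (h μ) - V h (cc μ)))‖
        ≤ ∑ μ ∈ c₀.support, ‖c₀ μ‖ * (ε / S * δ ^ p.1) := by
          refine (norm_sum_le _ _).trans (Finset.sum_le_sum fun μ hμ => ?_)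
          rw [map_smul, norm_smul, evalL_apply]
          gcongr
          exact (hcc μ (hc₀ hμ)).2 p
      _ = (∑ μ ∈ c₀.support, ‖c₀ μ‖) / S * (ε * δ ^ p.1) := by
          rw [← Finset.sum_mul]; ring
      _ ≤ 1 * (ε * δ ^ p.1) := by
          gcongr
          rw [div_le_one hS0]
          linarith
      _ = _ := one_mul _

/-- The operator `(a, φ) : x ↦ (p ↦ a p * x (φ p))`. -/
noncomputable def Mop (a : ℕ × ℕ → ℂ) (φ : ℕ × ℕ → ℕ × ℕ) (ha : ∀ p, ‖a p‖ ≤ 1) : E →L[ℂ] E :=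
  LinearMap.mkContinuous
    { toFun := fun x => BoundedContinuousFunction.ofNormedAddCommGroupDiscrete
        (fun p => a p * x (φ p)) ‖x‖ (by
          intro p
          rw [norm_mul]
          calc ‖a p‖ * ‖x (φ p)‖ ≤ 1 * ‖x‖ := by
                gcongr
                · exact ha p
                · exact x.norm_coe_le_norm _
            _ = ‖x‖ := one_mul _)
      map_add' := by
        intro x y
        ext p
        simp [mul_add]
      map_smul' := by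
        intro c x
        ext p
        simp
        ring } 1 (by
      intro x
      rw [one_mul, BoundedContinuousFunction.norm_le (norm_nonneg _)]
      intro p
      change ‖a p * x (φ p)‖ ≤ ‖x‖
      rw [norm_mul]
      calc ‖a p‖ * ‖x (φ p)‖ ≤ 1 * ‖x‖ := by
            gcongr
            · exact ha p
            · exact x.norm_coe_le_norm _
        _ = ‖x‖ := one_mul _)

theorem Mop_apply (a : ℕ × ℕ → ℂ) (φ : ℕ × ℕ → ℕ × ℕ) (ha : ∀ p, ‖a p‖ ≤ 1) (x : E)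
    (p : ℕ × ℕ) : Mop a φ ha x p = a p * x (φ p) := rfl

theorem norm_Mop_le (a : ℕ × ℕ → ℂ) (φ : ℕ × ℕ → ℕ × ℕ) (ha : ∀ p, ‖a p‖ ≤ 1) :
    ‖Mop a φ ha‖ ≤ 1 := LinearMap.mkContinuous_norm_le _ zero_le_one _

/-- the shift in the first variable (differentiation) -/
noncomputable def T : E →L[ℂ] E := Mop (fun _ => 1) (fun p => (p.1 + 1, p.2)) (by simp)

/-- the shift in the second variable -/
noncomputable def U : E →L[ℂ] E := Mop (fun _ => 1) (fun p => (p.1, p.2 + 1)) (by simp)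

theorem T_apply (x : E) (p : ℕ × ℕ) : T x p = x (p.1 + 1, p.2) := by
  unfold T; rw [Mop_apply, one_mul]

theorem U_apply (x : E) (p : ℕ × ℕ) : U x p = x (p.1, p.2 + 1) := by
  unfold U; rw [Mop_apply, one_mul]

theorem T_pow_apply (n : ℕ) (x : E) (p : ℕ × ℕ) : (T ^ n) x p = x (p.1 + n, p.2) := by
  induction n generalizing x p with
  | zero => simp
  | succ n ih =>
    rw [pow_succ, mul_apply_eq_comp, ih, T_apply]
    rw [Nat.add_assoc]

/-- power series in an operator -/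
noncomputable def F {X : Type*} [NormedAddCommGroup X] [NormedSpace ℂ X] (a : ℕ → ℂ)
    (A : X →L[ℂ] X) : X →L[ℂ] X := ∑' n, a n • A ^ n

/-- operators bounded for all the weighted bounds -/
def Good (Q : E →L[ℂ] E) (M : ℝ) : Prop :=
  0 ≤ M ∧ ∀ δ : ℝ, 0 < δ → δ ≤ 1 → ∀ (x : E) (C : ℝ), B δ x C → B δ (Q x) (M * C)

theorem good_one : Good 1 1 := ⟨zero_le_one, fun δ _ _ x C hx => by simpa using hx⟩

theorem good_T_pow (n : ℕ) : Good (T ^ n) 1 := by
  refine ⟨zero_le_one, fun δ h0 h1 x C hx p => ?_⟩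
  rw [T_pow_apply, one_mul]
  refine (hx _).trans ?_
  exact mul_le_mul_of_nonneg_left (pow_le_pow_of_le_one h0.le h1 (Nat.le_add_right _ _)) hx.nonneg

theorem Good.mul {Q Q' : E →L[ℂ] E} {M M' : ℝ} (h : Good Q M) (h' : Good Q' M') :
    Good (Q * Q') (M * M') := by
  refine ⟨mul_nonneg h.1 h'.1, fun δ h0 h1 x C hx => ?_⟩
  rw [mul_apply_eq_comp, mul_assoc]
  exact h.2 δ h0 h1 _ _ (h'.2 δ h0 h1 _ _ hx)

theorem Good.pow {Q : E →L[ℂ] E} {M : ℝ} (h : Good Q M) (n : ℕ) : Good (Q ^ n) (M ^ n) := by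
  induction n with
  | zero => simpa using good_one
  | succ n ih => rw [pow_succ, pow_succ]; exact ih.mul h

theorem Good.sub {Q Q' : E →L[ℂ] E} {M M' : ℝ} (h : Good Q M) (h' : Good Q' M') :
    Good (Q - Q') (M + M') := by
  refine ⟨add_nonneg h.1 h'.1, fun δ h0 h1 x C hx => ?_⟩
  rw [sub_apply, add_mul]
  exact (h.2 δ h0 h1 _ _ hx).sub (h'.2 δ h0 h1 _ _ hx)

theorem norm_T_le : ‖T‖ ≤ 1 := norm_Mop_le _ _ _

theorem summable_F {X : Type*} [NormedAddCommGroup X] [NormedSpace ℂ X] [CompleteSpace X]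
    {a : ℕ → ℂ} (ha : Summable fun n => ‖a n‖) {A : X →L[ℂ] X} (hA : ‖A‖ ≤ 1) :
    Summable fun n => a n • A ^ n := by
  refine Summable.of_norm_bounded ha fun n => ?_
  rw [norm_smul]
  refine mul_le_of_le_one_right (norm_nonneg _) ?_
  induction n with
  | zero =>
    rw [pow_zero]
    exact ContinuousLinearMap.norm_id_le
  | succ n ih =>
    rw [pow_succ]
    exact (norm_mul_le _ _).trans (mul_le_one₀ ih (norm_nonneg _) hA)

theorem F_apply {X : Type*} [NormedAddCommGroup X] [NormedSpace ℂ X] [CompleteSpace X]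
    {a : ℕ → ℂ} (ha : Summable fun n => ‖a n‖) {A : X →L[ℂ] X} (hA : ‖A‖ ≤ 1) (x : X) :
    HasSum (fun n => a n • (A ^ n) x) (F a A x) := by
  have h1 := (summable_F ha hA).hasSum
  have h2 := (ContinuousLinearMap.apply ℂ X x).hasSum h1
  exact h2

theorem good_F {a : ℕ → ℂ} (ha : Summable fun n => ‖a n‖) : Good (F a T) (∑' n, ‖a n‖) := by
  refine ⟨tsum_nonneg fun _ => norm_nonneg _, fun δ h0 h1 x C hx p => ?_⟩
  have h2 := (evalL p).hasSum (F_apply ha norm_T_le x)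
  have h3 : Summable fun n => ‖a n‖ * (C * δ ^ p.1) := ha.mul_right _
  have h4 : ∀ n, ‖(evalL p) (a n • (T ^ n) x)‖ ≤ ‖a n‖ * (C * δ ^ p.1) := by
    intro n
    rw [map_smul, norm_smul, evalL_apply]
    gcongr
    have := (good_T_pow n).2 δ h0 h1 x C hx p
    rwa [one_mul] at this
  have h5 := tsum_of_norm_bounded h3.hasSum h4
  have h6 : (evalL p) (F a T x) = ∑' n, (evalL p) (a n • (T ^ n) x) := h2.tsum_eq.symm
  rw [evalL_apply] at h6
  rw [h6]
  refine h5.trans ?_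
  rw [tsum_mul_right, mul_assoc]

/-- multiplication of coefficients -/
noncomputable def mulc (q : ℂ → ℂ) (c : ℂ →₀ ℂ) : ℂ →₀ ℂ :=
  Finsupp.onFinset c.support (fun μ => q μ * c μ) (by
    intro μ hμ
    rw [Finsupp.mem_support_iff]
    rintro h0
    exact hμ (by rw [h0, mul_zero]))

theorem mulc_apply (q : ℂ → ℂ) (c : ℂ →₀ ℂ) (μ : ℂ) : mulc q c μ = q μ * c μ := rfl

theorem mulc_support (q : ℂ → ℂ) (c : ℂ →₀ ℂ) : (mulc q c).support ⊆ c.support :=
  Finsupp.support_onFinset_subset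

theorem mulc_mem {q : ℂ → ℂ} {c : ℂ →₀ ℂ} {Λ : Set ℂ} (hc : c ∈ Finsupp.supported ℂ ℂ Λ) :
    mulc q c ∈ Finsupp.supported ℂ ℂ Λ := by
  rw [Finsupp.mem_supported] at *
  exact (Finset.coe_subset.2 (mulc_support q c)).trans hc

theorem V_mulc (h q : ℂ → ℂ) (c : ℂ →₀ ℂ) :
    V h (mulc q c) = ∑ μ ∈ c.support, (q μ * c μ) • ev μ (h μ) := by
  unfold V mulc
  rw [Finsupp.linearCombination_apply, Finsupp.onFinset_sum]
  intro μ
  rw [zero_smul]

/-- `Q` acts on the vectors `ev μ (h μ)`, `μ ∈ Λ`, as multiplication by `q μ`. -/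
def Eig (Q : E →L[ℂ] E) (q h : ℂ → ℂ) (Λ : Set ℂ) : Prop :=
  ∀ μ ∈ Λ, Q (ev μ (h μ)) = q μ • ev μ (h μ)

theorem Eig.V {Q : E →L[ℂ] E} {q h : ℂ → ℂ} {Λ : Set ℂ} (hQ : Eig Q q h Λ) {c : ℂ →₀ ℂ}
    (hc : c ∈ Finsupp.supported ℂ ℂ Λ) : Q (V h c) = V h (mulc q c) := by
  rw [V_mulc]
  unfold ExpCounterexample.V
  rw [Finsupp.linearCombination_apply, Finsupp.sum, map_sum]
  apply Finset.sum_congr rfl
  intro μ hμ
  rw [map_smul, hQ μ (hc hμ), smul_smul, mul_comm]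

theorem Eig.mul {Q Q' : E →L[ℂ] E} {q q' h : ℂ → ℂ} {Λ : Set ℂ} (hQ : Eig Q q h Λ)
    (hQ' : Eig Q' q' h Λ) : Eig (Q * Q') (fun μ => q μ * q' μ) h Λ := by
  intro μ hμ
  rw [mul_apply_eq_comp, hQ' μ hμ, map_smul, hQ μ hμ, smul_smul, mul_comm]

theorem Eig.pow {Q : E →L[ℂ] E} {q h : ℂ → ℂ} {Λ : Set ℂ} (hQ : Eig Q q h Λ) (n : ℕ) :
    Eig (Q ^ n) (fun μ => q μ ^ n) h Λ := by
  induction n with
  | zero => intro μ _; simp
  | succ n ih =>
    have := ih.mul hQ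
    rw [pow_succ]
    intro μ hμ
    rw [this μ hμ]
    simp only [pow_succ]

theorem eig_T {h : ℂ → ℂ} {Λ : Set ℂ} (hΛ : ∀ z ∈ Λ, ‖z‖ ≤ 1) (hh : ∀ z ∈ Λ, ‖h z‖ ≤ 1) :
    Eig T (fun μ => μ) h Λ := by
  intro μ hμ
  ext p
  rw [T_apply, BoundedContinuousFunction.coe_smul]
  simp only [ev_apply (hΛ μ hμ) (hh μ hμ), smul_eq_mul]
  ring

theorem eig_U {h : ℂ → ℂ} {Λ : Set ℂ} (hΛ : ∀ z ∈ Λ, ‖z‖ ≤ 1) (hh : ∀ z ∈ Λ, ‖h z‖ ≤ 1) :
    Eig U h h Λ := by
  intro μ hμ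
  ext p
  rw [U_apply, BoundedContinuousFunction.coe_smul]
  simp only [ev_apply (hΛ μ hμ) (hh μ hμ), smul_eq_mul]
  ring

theorem eig_F {a : ℕ → ℂ} (ha : Summable fun n => ‖a n‖) {h : ℂ → ℂ} {Λ : Set ℂ}
    (hΛ : ∀ z ∈ Λ, ‖z‖ ≤ 1) (hh : ∀ z ∈ Λ, ‖h z‖ ≤ 1) :
    Eig (F a T) (fun μ => ∑' n, a n * μ ^ n) h Λ := by
  intro μ hμ
  have h1 := F_apply ha norm_T_le (ev μ (h μ))
  have h2 : ∀ n, a n • (T ^ n) (ev μ (h μ)) = (a n * μ ^ n) • ev μ (h μ) := by
    intro n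
    rw [(eig_T hΛ hh).pow n μ hμ, smul_smul]
  simp_rw [h2] at h1
  have h3 : Summable fun n => a n * μ ^ n := by
    refine Summable.of_norm_bounded ha fun n => ?_
    rw [norm_mul, norm_pow]
    exact mul_le_of_le_one_right (norm_nonneg _) (pow_le_one₀ (norm_nonneg _) (hΛ μ hμ))
  exact h1.unique (h3.hasSum.smul_const _)

/-- The basic step of the construction. -/
theorem step {Ω Ω' : Set ℂ} {h f q : ℂ → ℂ} {δ : ℝ} (hδ0 : 0 < δ) (hδ1 : δ ≤ 1)
    (hΩo : IsOpen Ω) (hΩc : IsPreconnected Ω) (hΩδ : ∀ z ∈ Ω, ‖z‖ < δ)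
    (hh : DifferentiableOn ℂ h Ω) (hh1 : ∀ z ∈ Ω, ‖h z‖ < 1) (hΩo' : IsOpen Ω') (hsub : Ω' ⊆ Ω)
    (hf : ContinuousOn f Ω') (hf1 : ∃ z ∈ Ω', ‖f z‖ < 1) (hf2 : ∃ z ∈ Ω', 1 < ‖f z‖)
    {S P : E →L[ℂ] E} (hS : Eig S f h Ω) (hP : Eig P q h Ω) {M : ℝ} (hPM : Good P M)
    {c : ℂ →₀ ℂ} (hc : c ∈ Finsupp.supported ℂ ℂ Ω) {ε : ℝ} (hε : 0 < ε) :
    ∃ n : ℕ, ∃ c' ∈ Finsupp.supported ℂ ℂ Ω', B δ (V h c' - V h c) ε ∧
      B δ ((S ^ n) (V h c') - P (V h c')) ε := by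
  set Λ₁ : Set ℂ := Ω' ∩ {z | ‖f z‖ < 1} with hΛ₁
  set Λ₂ : Set ℂ := Ω' ∩ {z | 1 < ‖f z‖} with hΛ₂
  have hfn : ContinuousOn (fun z => ‖f z‖) Ω' := hf.norm
  have ho1 : IsOpen Λ₁ := hfn.isOpen_inter_preimage hΩo' isOpen_Iio
  have ho2 : IsOpen Λ₂ := hfn.isOpen_inter_preimage hΩo' isOpen_Ioi
  have hs1 : Λ₁ ⊆ Ω := fun z hz => hsub hz.1
  have hs2 : Λ₂ ⊆ Ω := fun z hz => hsub hz.1
  obtain ⟨z1, hz1, hz1'⟩ := hf1
  obtain ⟨z2, hz2, hz2'⟩ := hf2
  obtain ⟨c1, hc1, hB1⟩ := approx hδ0 hδ1 hΩo hΩc hΩδ hh hh1 ho1 hs1 ⟨z1, hz1, hz1'⟩ hc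
    (show 0 < ε / 4 by positivity)
  have hc1Ω : c1 ∈ Finsupp.supported ℂ ℂ Ω := Finsupp.supported_mono hs1 hc1
  obtain ⟨b, hb, hB2⟩ := approx hδ0 hδ1 hΩo hΩc hΩδ hh hh1 ho2 hs2 ⟨z2, hz2, hz2'⟩
    (mulc_mem (q := q) hc1Ω) (show 0 < ε / 4 by positivity)
  have hbΩ : b ∈ Finsupp.supported ℂ ℂ Ω := Finsupp.supported_mono hs2 hb
  -- two null sequences
  have hlim1 : Tendsto (fun n : ℕ => ∑ μ ∈ c1.support, ‖c1 μ‖ * ‖f μ‖ ^ n) atTop (𝓝 0) := by
    rw [← Finset.sum_const_zero (s := c1.support)]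
    apply tendsto_finsetSum
    intro μ hμ
    have : ‖f μ‖ < 1 := (hc1 hμ).2
    simpa using (tendsto_pow_atTop_nhds_zero_of_lt_one (norm_nonneg _) this).const_mul ‖c1 μ‖
  have hlim2 : Tendsto (fun n : ℕ => ∑ μ ∈ b.support, ‖b μ‖ * (‖f μ‖⁻¹) ^ n) atTop (𝓝 0) := by
    rw [← Finset.sum_const_zero (s := b.support)]
    apply tendsto_finsetSum
    intro μ hμ
    have : 1 < ‖f μ‖ := (hb hμ).2
    have h2 : ‖f μ‖⁻¹ < 1 := inv_lt_one_of_one_lt₀ this
    simpa using (tendsto_pow_atTop_nhds_zero_of_lt_one (by positivity) h2).const_mul ‖b μ‖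
  have hM1 : 0 < M + 1 := by linarith [hPM.1]
  obtain ⟨n, hn1, hn2⟩ := ((hlim1.eventually_lt_const (show (0:ℝ) < ε / 4 by positivity)).and
    (hlim2.eventually_lt_const (show (0:ℝ) < ε / 4 / (M + 1) by positivity))).exists
  set u : ℂ →₀ ℂ := mulc (fun μ => (f μ ^ n)⁻¹) b with hu
  have huΛ : u ∈ Finsupp.supported ℂ ℂ Λ₂ := mulc_mem hb
  have huΩ : u ∈ Finsupp.supported ℂ ℂ Ω := Finsupp.supported_mono hs2 huΛ
  have hδz : ∀ z ∈ Ω, ‖z‖ ≤ δ := fun z hz => (hΩδ z hz).le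
  have hhz : ∀ z ∈ Ω, ‖h z‖ ≤ 1 := fun z hz => (hh1 z hz).le
  -- size of `V h u`
  have hBu : B δ (V h u) (ε / 4 / (M + 1)) := by
    refine (B_V hδ0.le hδ1 hδz hhz huΩ).mono hδ0.le ?_
    calc ∑ μ ∈ u.support, ‖u μ‖ ≤ ∑ μ ∈ b.support, ‖u μ‖ :=
          Finset.sum_le_sum_of_subset_of_nonneg (mulc_support _ _) fun _ _ _ => norm_nonneg _
      _ = ∑ μ ∈ b.support, ‖b μ‖ * (‖f μ‖⁻¹) ^ n := by
          apply Finset.sum_congr rfl
          intro μ _
          rw [hu, mulc_apply, norm_mul, norm_inv, norm_pow, inv_pow, mul_comm]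
      _ ≤ _ := hn2.le
  have hBu' : B δ (V h u) (ε / 4) := by
    refine hBu.mono hδ0.le ?_
    exact div_le_self (by positivity) (by linarith [hPM.1])
  have hPu : B δ (P (V h u)) (ε / 4) := by
    refine (hPM.2 δ hδ0 hδ1 _ _ hBu).mono hδ0.le ?_
    rw [mul_div_assoc']
    rw [div_le_iff₀ hM1]
    nlinarith [hPM.1]
  -- size of `S ^ n (V h c1)`
  have hSc1 : B δ ((S ^ n) (V h c1)) (ε / 4) := by
    rw [(hS.pow n).V hc1Ω]
    refine (B_V hδ0.le hδ1 hδz hhz (mulc_mem hc1Ω)).mono hδ0.le ?_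
    calc ∑ μ ∈ (mulc (fun μ => f μ ^ n) c1).support, ‖mulc (fun μ => f μ ^ n) c1 μ‖
        ≤ ∑ μ ∈ c1.support, ‖mulc (fun μ => f μ ^ n) c1 μ‖ :=
          Finset.sum_le_sum_of_subset_of_nonneg (mulc_support _ _) fun _ _ _ => norm_nonneg _
      _ = ∑ μ ∈ c1.support, ‖c1 μ‖ * ‖f μ‖ ^ n := by
          apply Finset.sum_congr rfl
          intro μ _
          rw [mulc_apply, norm_mul, norm_pow, mul_comm]
      _ ≤ _ := hn1.le
  -- `S ^ n (V h u) = V h b`
  have hSu : (S ^ n) (V h u) = V h b := by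
    rw [(hS.pow n).V huΩ]
    congr 1
    ext μ
    rw [mulc_apply, hu, mulc_apply]
    by_cases hμ : μ ∈ b.support
    · have h1 : 1 < ‖f μ‖ := (hb hμ).2
      have h2 : f μ ≠ 0 := by
        intro h0; rw [h0, norm_zero] at h1; linarith
      rw [← mul_assoc, mul_inv_cancel₀ (pow_ne_zero _ h2), one_mul]
    · rw [Finsupp.notMem_support_iff.1 hμ]; ring
  refine ⟨n, c1 + u, ?_, ?_, ?_⟩
  · exact Submodule.add_mem _ (Finsupp.supported_mono (fun z hz => hz.1) hc1)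
      (Finsupp.supported_mono (fun z hz => hz.1) huΛ)
  · have h1 : V h (c1 + u) - V h c = V h u - (V h c - V h c1) := by
      rw [map_add]; abel
    rw [h1]
    refine (hBu'.sub hB1).mono hδ0.le ?_
    linarith
  · have h1 : (S ^ n) (V h (c1 + u)) - P (V h (c1 + u)) =
        ((S ^ n) (V h c1) - P (V h u)) - (V h (mulc q c1) - V h b) := by
      rw [map_add, map_add, map_add, hSu, hP.V hc1Ω]; abel
    rw [h1]
    refine ((hSc1.sub hPu).sub hB2).mono hδ0.le ?_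
    linarith

/-- The sequence of successive approximations and its limit. -/
theorem construction (δ : ℕ → ℝ) (hδ0 : ∀ k, 0 < δ k) (hδ1 : ∀ k, δ k ≤ 1) (hδa : Antitone δ)
    (Ω : ℕ → Set ℂ) (hΩo : ∀ k, IsOpen (Ω k)) (hΩc : ∀ k, IsPreconnected (Ω k))
    (hΩδ : ∀ k, ∀ z ∈ Ω k, ‖z‖ < δ k) (hΩs : ∀ k, Ω (k + 1) ⊆ Ω k)
    (h f : ℂ → ℂ) (hh : DifferentiableOn ℂ h (Ω 0)) (hh1 : ∀ z ∈ Ω 0, ‖h z‖ < 1)
    (hf : ContinuousOn f (Ω 0)) (hf1 : ∀ k, ∃ z ∈ Ω k, ‖f z‖ < 1)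
    (hf2 : ∀ k, ∃ z ∈ Ω k, 1 < ‖f z‖)
    (S : E →L[ℂ] E) (hS : Eig S f h (Ω 0)) (MS : ℝ) (hSM : Good S MS)
    (P : ℕ → E →L[ℂ] E) (q : ℕ → ℂ → ℂ) (hP : ∀ k, Eig (P k) (q k) h (Ω 0)) (MP : ℕ → ℝ)
    (hPM : ∀ k, Good (P k) (MP k)) (c₀ : ℂ →₀ ℂ) (hc₀ : c₀ ∈ Finsupp.supported ℂ ℂ (Ω 0)) :
    ∃ (n : ℕ → ℕ) (c : ℕ → (ℂ →₀ ℂ)) (ψ : E), (∀ k, c k ∈ Finsupp.supported ℂ ℂ (Ω 0)) ∧
      Tendsto (fun k => V h (c k)) atTop (𝓝 ψ) ∧ ‖ψ - V h c₀‖ ≤ 2 ∧
      (∀ k, ∃ C, B (δ k) ψ C) ∧ ∀ k, B (δ k) ((S ^ n k) ψ - P k ψ) (2 * (1 / 2) ^ k) := by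
  have hΩ0 : ∀ k, Ω k ⊆ Ω 0 := by
    intro k
    induction k with
    | zero => exact le_rfl
    | succ k ih => exact (hΩs k).trans ih
  -- invariants
  let Inv : ℕ → (ℂ →₀ ℂ) × ℝ × ℕ → Prop := fun k s =>
    s.1 ∈ Finsupp.supported ℂ ℂ (Ω k) ∧ 1 ≤ s.2.1
  let Rel : ℕ → (ℂ →₀ ℂ) × ℝ × ℕ → (ℂ →₀ ℂ) × ℝ × ℕ → Prop := fun k s s' =>
    B (δ k) (V h s'.1 - V h s.1) ((1 / 2) ^ k / s.2.1) ∧
    B (δ k) ((S ^ s'.2.2) (V h s'.1) - P k (V h s'.1)) ((1 / 2) ^ k) ∧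
    s.2.1 ≤ s'.2.1 ∧ Good (S ^ s'.2.2 - P k) s'.2.1
  have hstep : ∀ k s, ∃ s', Inv k s → Inv (k + 1) s' ∧ Rel k s s' := by
    intro k s
    by_cases hs : Inv k s
    · obtain ⟨hs1, hs2⟩ := hs
      have hs3 : 0 < s.2.1 := by linarith
      obtain ⟨n, c', hc', hB1, hB2⟩ := step (hδ0 k) (hδ1 k) (hΩo k) (hΩc k) (hΩδ k)
        (hh.mono (hΩ0 k)) (fun z hz => hh1 z (hΩ0 k hz)) (hΩo (k + 1)) (hΩs k)
        (hf.mono (hΩ0 (k + 1))) (hf1 (k + 1)) (hf2 (k + 1))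
        (fun z hz => hS z (hΩ0 k hz)) (fun z hz => hP k z (hΩ0 k hz)) (hPM k) hs1
        (show 0 < (1 / 2 : ℝ) ^ k / s.2.1 by positivity)
      have hG : Good (S ^ n - P k) (MS ^ n + MP k) := (hSM.pow n).sub (hPM k)
      refine ⟨(c', max s.2.1 (MS ^ n + MP k), n), fun _ => ⟨⟨hc', ?_⟩, hB1, ?_, ?_, ?_⟩⟩
      · exact le_max_of_le_left hs2
      · refine hB2.mono (hδ0 k).le ?_
        exact div_le_self (by positivity) hs2
      · exact le_max_left _ _
      · refine ⟨le_max_of_le_left hs3.le, fun δ h0 h1 x C hx => ?_⟩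
        refine (hG.2 δ h0 h1 x C hx).mono h0.le ?_
        exact mul_le_mul_of_nonneg_right (le_max_right _ _) hx.nonneg
    · exact ⟨s, fun h => absurd h hs⟩
  choose g hg using hstep
  let s : ℕ → (ℂ →₀ ℂ) × ℝ × ℕ := fun k => Nat.rec (c₀, 1, 0) (fun k s => g k s) k
  have hs0 : s 0 = (c₀, 1, 0) := rfl
  have hs1 : ∀ k, s (k + 1) = g k (s k) := fun k => rfl
  have hInv : ∀ k, Inv k (s k) := by
    intro k
    induction k with
    | zero => exact ⟨hc₀, le_rfl⟩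
    | succ k ih => rw [hs1]; exact (hg k (s k) ih).1
  have hRel : ∀ k, Rel k (s k) (s (k + 1)) := fun k => by rw [hs1]; exact (hg k (s k) (hInv k)).2
  set M : ℕ → ℝ := fun k => (s k).2.1 with hM
  set v : ℕ → E := fun k => V h (s k).1 with hv
  have hM1 : ∀ k, 1 ≤ M k := fun k => (hInv k).2
  have hM0 : ∀ k, 0 < M k := fun k => by linarith [hM1 k]
  have hMm : Monotone M := monotone_nat_of_le_succ fun k => (hRel k).2.2.1
  have hclaim : ∀ k l, k ≤ l →
      B (δ k) (v l - v k) ((2 * (1 / 2) ^ k - 2 * (1 / 2) ^ l) / M k) := by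
    intro k l hkl
    induction l, hkl using Nat.le_induction with
    | base =>
      rw [sub_self, sub_self, zero_div]
      exact B.zero (hδ0 k).le le_rfl
    | succ l hkl ih =>
      have h1 : B (δ k) (v (l + 1) - v l) ((1 / 2) ^ l / M k) := by
        have h2 := (hRel l).1
        have h3 : B (δ k) (v (l + 1) - v l) ((1 / 2) ^ l / M l) :=
          B.mono_delta (hδ0 l).le (hδa hkl) (div_nonneg (by positivity) (hM0 l).le) h2
        refine h3.mono (hδ0 k).le ?_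
        exact div_le_div_of_nonneg_left (by positivity) (hM0 k) (hMm hkl)
      have h2 : v (l + 1) - v k = (v (l + 1) - v l) + (v l - v k) := by abel
      rw [h2]
      refine (h1.add ih).mono (hδ0 k).le (le_of_eq ?_)
      rw [← add_div]
      congr 1
      ring
  have hcauchy : CauchySeq v := by
    refine cauchySeq_of_le_geometric (1 / 2) 1 (by norm_num) fun k => ?_
    rw [dist_comm, dist_eq_norm, one_mul]
    have h1 := (hRel k).1.norm_le (hδ0 k).le (hδ1 k)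
    refine h1.trans ?_
    exact div_le_self (by positivity) (hM1 k)
  obtain ⟨ψ, hψ⟩ := cauchySeq_tendsto_of_complete hcauchy
  have hlim : ∀ k, B (δ k) (ψ - v k) (2 * (1 / 2) ^ k / M k) := by
    intro k p
    have h1 : Tendsto (fun l => ‖(v l - v k) p‖) atTop (𝓝 ‖(ψ - v k) p‖) := by
      have h2 : Tendsto (fun l => v l - v k) atTop (𝓝 (ψ - v k)) := hψ.sub_const _
      exact (((evalL p).continuous.tendsto _).comp h2).norm
    refine le_of_tendsto h1 ?_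
    filter_upwards [eventually_ge_atTop k] with l hl
    refine (hclaim k l hl p).trans ?_
    have : 0 < δ k := hδ0 k
    have := hM0 k
    gcongr
    have : (0:ℝ) ≤ 2 * (1 / 2) ^ l := by positivity
    linarith
  refine ⟨fun k => (s (k + 1)).2.2, fun k => (s k).1, ψ, ?_, hψ, ?_, ?_, ?_⟩
  · exact fun k => Finsupp.supported_mono (hΩ0 k) (hInv k).1
  · have h1 := (hlim 0).norm_le (hδ0 0).le (hδ1 0)
    have h2 : v 0 = V h c₀ := rfl
    rw [h2] at h1
    refine h1.trans ?_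
    have h3 : M 0 = 1 := rfl
    rw [h3]; norm_num
  · intro k
    have h1 : ψ = (ψ - v k) + v k := by abel
    have h2 := B_V (hδ0 k).le (hδ1 k) (fun z hz => (hΩδ k z hz).le)
      (fun z hz => (hh1 z (hΩ0 k hz)).le) (hInv k).1
    refine ⟨2 * (1 / 2) ^ k / M k + ∑ μ ∈ (s k).1.support, ‖(s k).1 μ‖, ?_⟩
    have h3 := (hlim k).add h2
    rwa [sub_add_cancel] at h3
  · intro k
    obtain ⟨_, hR2, _, hR4⟩ := hRel k
    have h1 := hR4.2 (δ (k + 1)) (hδ0 _) (hδ1 _) _ _ (hlim (k + 1))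
    have h2 : M (k + 1) * (2 * (1 / 2) ^ (k + 1) / M (k + 1)) = (1 / 2) ^ k := by
      have := (hM0 (k + 1)).ne'
      field_simp
      ring
    have h3 : B (δ (k + 1)) ((S ^ (s (k + 1)).2.2 - P k) (ψ - v (k + 1))) ((1 / 2) ^ k) := by
      rw [← h2]; exact h1
    have h4 := B.mono_delta (hδ0 (k + 1)).le (hδa (Nat.le_succ k)) (by positivity) h3
    have h5 : (S ^ (s (k + 1)).2.2) ψ - P k ψ =
        ((S ^ (s (k + 1)).2.2) (v (k + 1)) - P k (v (k + 1))) +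
          (S ^ (s (k + 1)).2.2 - P k) (ψ - v (k + 1)) := by
      rw [sub_apply, map_sub, map_sub]; abel
    rw [h5]
    refine (hR2.add h4).mono (hδ0 k).le (le_of_eq ?_)
    ring

/-- A sequence of polynomials which approximates every polynomial infinitely often, uniformly over
all contractions. -/
theorem exists_poly_enum : ∃ poly : ℕ → Polynomial ℂ, ∀ (p : Polynomial ℂ) (ε : ℝ), 0 < ε →
    ∀ N : ℕ, ∃ k ≥ N, ∀ (X : Type) [NormedAddCommGroup X] [NormedSpace ℂ X] (A : X →L[ℂ] X),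
      ‖A‖ ≤ 1 → ‖Polynomial.aeval A p - Polynomial.aeval A (poly k)‖ ≤ ε := by
  obtain ⟨φ, hφ⟩ := exists_surjective_nat (ℕ × (Σ n : ℕ, (Fin n → ℕ)))
  let d := TopologicalSpace.denseSeq ℂ
  let pol : (Σ n : ℕ, (Fin n → ℕ)) → Polynomial ℂ := fun σ =>
    ∑ i : Fin σ.1, Polynomial.C (d (σ.2 i)) * Polynomial.X ^ (i : ℕ)
  refine ⟨fun k => pol (φ k).2, ?_⟩
  intro p ε hε N
  set n := p.natDegree + 1 with hn
  have hn0 : (0:ℝ) < n := by rw [hn]; positivity
  have h1 : ∀ i : Fin n, ∃ j : ℕ, ‖p.coeff i - d j‖ < ε / n := by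
    intro i
    have h2 := (TopologicalSpace.denseRange_denseSeq ℂ).exists_dist_lt (p.coeff i)
      (show 0 < ε / n by positivity)
    obtain ⟨j, hj⟩ := h2
    exact ⟨j, by rwa [← dist_eq_norm]⟩
  choose σ hσ using h1
  have hinf : {k : ℕ | (φ k).2 = ⟨n, σ⟩}.Infinite := by
    choose ψ hψ using fun m : ℕ => hφ (m, ⟨n, σ⟩)
    refine Set.infinite_of_injective_forall_mem (f := ψ) ?_ ?_
    · intro m m' hmm
      have h3 := hψ m
      rw [hmm, hψ m'] at h3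
      exact (congrArg Prod.fst h3).symm
    · intro m
      change (φ (ψ m)).2 = ⟨n, σ⟩
      rw [hψ]
  obtain ⟨k, hk, hkN⟩ := hinf.exists_gt N
  refine ⟨k, hkN.le, ?_⟩
  intro X _ _ A hA
  have hk' : (φ k).2 = ⟨n, σ⟩ := hk
  change ‖Polynomial.aeval A p - Polynomial.aeval A (pol (φ k).2)‖ ≤ ε
  rw [hk']
  have h4 : Polynomial.aeval A p = ∑ i : Fin n, p.coeff i • A ^ (i : ℕ) := by
    rw [Polynomial.aeval_eq_sum_range, Fin.sum_univ_eq_sum_range (fun i => p.coeff i • A ^ i)]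
  have h5 : Polynomial.aeval A (pol ⟨n, σ⟩) = ∑ i : Fin n, d (σ i) • A ^ (i : ℕ) := by
    simp only [pol]
    rw [map_sum]
    apply Finset.sum_congr rfl
    intro i _
    rw [map_mul, map_pow, Polynomial.aeval_X, Polynomial.aeval_C, Algebra.algebraMap_eq_smul_one,
      smul_mul_assoc, one_mul]
  rw [h4, h5, ← Finset.sum_sub_distrib]
  have hApow : ∀ i : ℕ, ‖A ^ i‖ ≤ 1 := by
    intro i
    induction i with
    | zero =>
      rw [pow_zero]
      exact ContinuousLinearMap.norm_id_le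
    | succ n ih =>
      rw [pow_succ]
      exact (norm_mul_le _ _).trans (mul_le_one₀ ih (norm_nonneg _) hA)
  calc ‖∑ i : Fin n, (p.coeff i • A ^ (i : ℕ) - d (σ i) • A ^ (i : ℕ))‖
      ≤ ∑ i : Fin n, ε / n := by
        refine (norm_sum_le _ _).trans (Finset.sum_le_sum fun i _ => ?_)
        rw [← sub_smul, norm_smul]
        calc ‖p.coeff i - d (σ i)‖ * ‖A ^ (i : ℕ)‖ ≤ ε / n * 1 := by
              gcongr
              · exact (hσ i).le
              · exact hApow i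
          _ = _ := mul_one _
    _ = ε := by
        rw [Finset.sum_const, Finset.card_univ, Fintype.card_fin, nsmul_eq_mul]
        field_simp

/-- Existence of the dominating constants. -/
theorem exists_weights (δ : ℕ → ℝ) (hδ0 : ∀ k, 0 < δ k)
    (b : ℕ → ℕ → ℝ) (c : ℕ → ℝ) :
    ∃ A : ℕ → ℝ, (∀ i, 1 ≤ A i) ∧ (∀ i, (δ i)⁻¹ ^ i ≤ A i) ∧ (∀ i, c i ≤ A i) ∧
      ∀ i, ∀ k < i, b i k ≤ A i / (i + 1) := by
  refine ⟨fun i => 1 + (δ i)⁻¹ ^ i + |c i| + (i + 1) * ∑ k ∈ Finset.range i, |b i k|, ?_, ?_, ?_, ?_⟩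
  · intro i
    have := hδ0 i
    have h1 : 0 ≤ (δ i)⁻¹ ^ i := by positivity
    have h2 : 0 ≤ |c i| := abs_nonneg _
    have h3 : 0 ≤ ((i : ℝ) + 1) * ∑ k ∈ Finset.range i, |b i k| := by positivity
    linarith
  · intro i
    have h2 : 0 ≤ |c i| := abs_nonneg _
    have h3 : 0 ≤ ((i : ℝ) + 1) * ∑ k ∈ Finset.range i, |b i k| := by positivity
    linarith
  · intro i
    have := hδ0 i
    have h1 : 0 ≤ (δ i)⁻¹ ^ i := by positivity
    have h2 : c i ≤ |c i| := le_abs_self _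
    have h3 : 0 ≤ ((i : ℝ) + 1) * ∑ k ∈ Finset.range i, |b i k| := by positivity
    linarith
  · intro i k hk
    rw [le_div_iff₀ (by positivity)]
    have := hδ0 i
    have h1 : 0 ≤ (δ i)⁻¹ ^ i := by positivity
    have h2 : 0 ≤ |c i| := abs_nonneg _
    have h4 : b i k ≤ ∑ k ∈ Finset.range i, |b i k| :=
      (le_abs_self _).trans (Finset.single_le_sum (f := fun k => |b i k|)
        (fun _ _ => abs_nonneg _) (Finset.mem_range.2 hk))
    have h5 : b i k * ((i : ℝ) + 1) ≤ ((i : ℝ) + 1) * ∑ k ∈ Finset.range i, |b i k| := by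
      rw [mul_comm]
      gcongr
    linarith

/-- the weight `W j = inf_i A i * δ i ^ j` -/
noncomputable def W (δ A : ℕ → ℝ) (j : ℕ) : ℝ := ⨅ i, A i * δ i ^ j

section
variable {δ A : ℕ → ℝ} (hδ0 : ∀ k, 0 < δ k) (hδ1 : ∀ k, δ k ≤ 1) (hδa : Antitone δ)
  (hA1 : ∀ i, 1 ≤ A i) (hA2 : ∀ i, (δ i)⁻¹ ^ i ≤ A i)
include hδ0 hA1

theorem W_bdd (j : ℕ) : BddBelow (Set.range fun i => A i * δ i ^ j) := by
  refine ⟨0, ?_⟩
  rintro _ ⟨i, rfl⟩
  have := hδ0 i
  have := hA1 i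
  positivity

theorem W_le (i j : ℕ) : W δ A j ≤ A i * δ i ^ j := ciInf_le (W_bdd hδ0 hA1 j) i

omit hδ0 hA1 in
theorem le_W (j : ℕ) (x : ℝ) (hx : ∀ i, x ≤ A i * δ i ^ j) : x ≤ W δ A j := le_ciInf hx

include hδ1 hδa hA2 in
theorem W_pos (j : ℕ) : 0 < W δ A j := by
  have h0 : 0 < δ j ^ j := pow_pos (hδ0 j) j
  refine h0.trans_le (le_W j _ fun i => ?_)
  rcases le_total i j with h | h
  · calc δ j ^ j ≤ δ i ^ j := pow_le_pow_left₀ (hδ0 j).le (hδa h) j
      _ ≤ A i * δ i ^ j := le_mul_of_one_le_left (pow_nonneg (hδ0 i).le _) (hA1 i)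
  · calc δ j ^ j ≤ 1 := pow_le_one₀ (hδ0 j).le (hδ1 j)
      _ = (δ i)⁻¹ ^ i * δ i ^ i := by rw [← mul_pow, inv_mul_cancel₀ (hδ0 i).ne', one_pow]
      _ ≤ A i * δ i ^ j := by
        have := hδ0 i
        have h2 : δ i ^ i ≤ δ i ^ j := pow_le_pow_of_le_one (hδ0 i).le (hδ1 i) h
        have h3 := hA2 i
        have h4 : 0 ≤ A i := by linarith [hA1 i]
        gcongr

include hδ1 in
theorem W_anti (j n : ℕ) : W δ A (j + n) ≤ W δ A j := by
  refine le_W j _ fun i => (W_le hδ0 hA1 i (j + n)).trans ?_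
  have h1 := hA1 i
  have h2 : δ i ^ (j + n) ≤ δ i ^ j := pow_le_pow_of_le_one (hδ0 i).le (hδ1 i) (Nat.le_add_right _ _)
  gcongr

include hδ1 hδa hA2 in
theorem W_mul (j n : ℕ) : W δ A (j + n) * W δ A 0 ≤ W δ A j * W δ A n := by
  have hp : ∀ k, 0 < W δ A k := W_pos hδ0 hδ1 hδa hA1 hA2
  have hA0 : ∀ i, 0 < A i := fun i => by linarith [hA1 i]
  -- first bound against two generic members
  have key : ∀ i l : ℕ, W δ A (j + n) * W δ A 0 ≤ (A i * δ i ^ j) * (A l * δ l ^ n) := by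
    intro i l
    have := hA0 i
    have := hA0 l
    have := hδ0 i
    have := hδ0 l
    rcases le_total i l with h | h
    · calc W δ A (j + n) * W δ A 0 ≤ (A l * δ l ^ (j + n)) * (A i * δ i ^ 0) := by
            gcongr
            · exact (hp 0).le
            · exact W_le hδ0 hA1 l (j + n)
            · exact W_le hδ0 hA1 i 0
        _ = (A i * δ l ^ j) * (A l * δ l ^ n) := by rw [pow_zero, pow_add]; ring
        _ ≤ (A i * δ i ^ j) * (A l * δ l ^ n) := by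
            gcongr
            exact hδa h
    · calc W δ A (j + n) * W δ A 0 ≤ (A i * δ i ^ (j + n)) * (A l * δ l ^ 0) := by
            gcongr
            · exact (hp 0).le
            · exact W_le hδ0 hA1 i (j + n)
            · exact W_le hδ0 hA1 l 0
        _ = (A i * δ i ^ j) * (A l * δ i ^ n) := by rw [pow_zero, pow_add]; ring
        _ ≤ (A i * δ i ^ j) * (A l * δ l ^ n) := by
            gcongr
            exact hδa h
  have h1 : ∀ l : ℕ, W δ A (j + n) * W δ A 0 ≤ W δ A j * (A l * δ l ^ n) := by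
    intro l
    have := hA0 l
    have := hδ0 l
    have hpos : 0 < A l * δ l ^ n := by positivity
    rw [← div_le_iff₀ hpos]
    refine le_W j _ fun i => ?_
    rw [div_le_iff₀ hpos]
    exact key i l
  rw [mul_comm (W δ A j), ← div_le_iff₀ (hp j)]
  refine le_W n _ fun l => ?_
  rw [div_le_iff₀ (hp j), mul_comm (A l * δ l ^ n)]
  exact h1 l

end


theorem Good.add {Q Q' : E →L[ℂ] E} {M M' : ℝ} (h : Good Q M) (h' : Good Q' M') :
    Good (Q + Q') (M + M') := by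
  refine ⟨add_nonneg h.1 h'.1, fun δ h0 h1 x C hx => ?_⟩
  rw [add_apply, add_mul]
  exact (h.2 δ h0 h1 _ _ hx).add (h'.2 δ h0 h1 _ _ hx)

theorem Good.smul {Q : E →L[ℂ] E} {M : ℝ} (a : ℂ) (h : Good Q M) : Good (a • Q) (‖a‖ * M) := by
  refine ⟨mul_nonneg (norm_nonneg _) h.1, fun δ h0 h1 x C hx => ?_⟩
  rw [smul_apply, mul_assoc]
  exact (h.2 δ h0 h1 _ _ hx).smul a

theorem good_aeval (p : Polynomial ℂ) : ∃ M, Good (Polynomial.aeval T p) M := by
  induction p using Polynomial.induction_on' with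
  | add p q hp hq =>
    obtain ⟨M, hM⟩ := hp
    obtain ⟨M', hM'⟩ := hq
    exact ⟨M + M', by rw [map_add]; exact hM.add hM'⟩
  | monomial n a =>
    refine ⟨‖a‖ * 1, ?_⟩
    rw [Polynomial.aeval_monomial, Algebra.algebraMap_eq_smul_one, smul_mul_assoc, one_mul]
    exact (good_T_pow n).smul a

theorem eig_aeval (p : Polynomial ℂ) {h : ℂ → ℂ} {Λ : Set ℂ} (hΛ : ∀ z ∈ Λ, ‖z‖ ≤ 1)
    (hh : ∀ z ∈ Λ, ‖h z‖ ≤ 1) : Eig (Polynomial.aeval T p) (fun μ => p.eval μ) h Λ := by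
  induction p using Polynomial.induction_on' with
  | add p q hp hq =>
    intro μ hμ
    rw [map_add, add_apply, hp μ hμ, hq μ hμ, ← add_smul]
    simp
  | monomial n a =>
    intro μ hμ
    rw [Polynomial.aeval_monomial, Algebra.algebraMap_eq_smul_one, smul_mul_assoc, one_mul,
      smul_apply, (eig_T hΛ hh).pow n μ hμ, smul_smul]
    simp

theorem intertwine_pow {X : Type*} [NormedAddCommGroup X] [NormedSpace ℂ X] {ι A A' : X →L[ℂ] X}
    (h : ι * A = A' * ι) (n : ℕ) : ι * A ^ n = A' ^ n * ι := by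
  induction n with
  | zero => simp
  | succ n ih => rw [pow_succ, ← mul_assoc, ih, mul_assoc, h, ← mul_assoc, pow_succ]

theorem intertwine_aeval {X : Type*} [NormedAddCommGroup X] [NormedSpace ℂ X]
    {ι A A' : X →L[ℂ] X} (h : ι * A = A' * ι) (p : Polynomial ℂ) :
    ι * Polynomial.aeval A p = Polynomial.aeval A' p * ι := by
  induction p using Polynomial.induction_on' with
  | add p q hp hq => rw [map_add, map_add, mul_add, add_mul, hp, hq]
  | monomial n a =>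
    rw [Polynomial.aeval_monomial, Polynomial.aeval_monomial, Algebra.algebraMap_eq_smul_one,
      smul_mul_assoc, smul_mul_assoc, one_mul, one_mul,
      mul_smul_comm, smul_mul_assoc, intertwine_pow h]

theorem intertwine_F {X : Type*} [NormedAddCommGroup X] [NormedSpace ℂ X] [CompleteSpace X]
    {ι A A' : X →L[ℂ] X} (h : ι * A = A' * ι) (hA : ‖A‖ ≤ 1) (hA' : ‖A'‖ ≤ 1) {a : ℕ → ℂ}
    (ha : Summable fun n => ‖a n‖) : ι * F a A = F a A' * ι := by
  ext x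
  rw [mul_apply_eq_comp, mul_apply_eq_comp]
  have h1 := ι.hasSum (F_apply ha hA x)
  have h2 := F_apply ha hA' (ι x)
  have h3 : ∀ n, ι (a n • (A ^ n) x) = a n • (A' ^ n) (ι x) := by
    intro n
    rw [map_smul]
    congr 1
    have := intertwine_pow h n
    rw [← mul_apply_eq_comp, this, mul_apply_eq_comp]
  simp_rw [h3] at h1
  exact h1.unique h2

/-- Everything on the level of the big space. -/
theorem core (δ : ℕ → ℝ) (hδ0 : ∀ k, 0 < δ k) (hδ1 : ∀ k, δ k ≤ 1) (hδa : Antitone δ)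
    (hδt : Tendsto δ atTop (𝓝 0))
    (Ω : ℕ → Set ℂ) (hΩo : ∀ k, IsOpen (Ω k)) (hΩc : ∀ k, IsPreconnected (Ω k))
    (hΩδ : ∀ k, ∀ z ∈ Ω k, ‖z‖ < δ k) (hΩs : ∀ k, Ω (k + 1) ⊆ Ω k)
    (h : ℂ → ℂ) (hh : DifferentiableOn ℂ h (Ω 0)) (hh1 : ∀ z ∈ Ω 0, ‖h z‖ < 1)
    (a : ℕ → ℂ) (ha : Summable fun n => ‖a n‖)
    (hf1 : ∀ k, ∃ z ∈ Ω k, ‖∑' n, a n * z ^ n‖ < 1)
    (hf2 : ∀ k, ∃ z ∈ Ω k, 1 < ‖∑' n, a n * z ^ n‖) :
    ∃ (A : E →L[ℂ] E) (y : E), ‖A‖ ≤ 1 ∧ (∀ ρ : ℝ, 0 < ρ → ∃ C, ∀ n : ℕ, ‖A ^ n‖ ≤ C * ρ ^ n) ∧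
      y ≠ 0 ∧ (∀ (p : Polynomial ℂ) (ε : ℝ), 0 < ε →
        ∃ n : ℕ, ‖((F a A) ^ n) y - Polynomial.aeval A p y‖ ≤ ε) ∧ Commute A U ∧
      ∀ b d : ℕ → ℂ, (Summable fun n => ‖b n‖) → (Summable fun n => ‖d n‖) →
        (∀ μ ∈ Ω 0, (∑' n, b n * μ ^ n) * h μ = ∑' n, d n * μ ^ n) →
        F b A (U y) = F d A y := by
  have hΩ1 : ∀ z ∈ Ω 0, ‖z‖ ≤ 1 := fun z hz => (hΩδ 0 z hz).le.trans (hδ1 0)
  have hh1' : ∀ z ∈ Ω 0, ‖h z‖ ≤ 1 := fun z hz => (hh1 z hz).le
  obtain ⟨poly, hpoly⟩ := exists_poly_enum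
  set f : ℂ → ℂ := fun z => ∑' n, a n * z ^ n with hf
  have hfc : ContinuousOn f (Ω 0) := by
    refine continuousOn_tsum (fun n => by fun_prop) ha fun n z hz => ?_
    rw [norm_mul, norm_pow]
    exact mul_le_of_le_one_right (norm_nonneg _) (pow_le_one₀ (norm_nonneg _) (hΩ1 z hz))
  choose MP hMP using fun k => good_aeval (poly k)
  obtain ⟨z0, hz0, -⟩ := hf1 0
  obtain ⟨n, c, ψ, hc, hcψ, hψ0, hψB, hψQ⟩ := construction δ hδ0 hδ1 hδa Ω hΩo hΩc hΩδ hΩs h f hh hh1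
    hfc hf1 hf2 (F a T) (eig_F ha hΩ1 hh1') _ (good_F ha) (fun k => Polynomial.aeval T (poly k))
    (fun k μ => (poly k).eval μ) (fun k => eig_aeval (poly k) hΩ1 hh1') MP hMP
    (Finsupp.single z0 3) (Finsupp.single_mem_supported ℂ _ hz0)
  choose cψ hcψB using hψB
  set S : E →L[ℂ] E := F a T with hS
  set Q : ℕ → E →L[ℂ] E := fun k => S ^ n k - Polynomial.aeval T (poly k) with hQ
  have hQG : ∀ k, Good (Q k) ((∑' n, ‖a n‖) ^ n k + MP k) := fun k => ((good_F ha).pow _).sub (hMP k)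
  obtain ⟨A, hA1, hA2, hA3, hA4⟩ := exists_weights δ hδ0
    (fun i k => ((∑' n, ‖a n‖) ^ n k + MP k) * cψ i) cψ
  have hA0 : ∀ i, 0 < A i := fun i => by linarith [hA1 i]
  set w : ℕ → ℝ := W δ A with hw
  have hwpos : ∀ j, 0 < w j := W_pos hδ0 hδ1 hδa hA1 hA2
  have hψw : ∀ p : ℕ × ℕ, ‖ψ p‖ ≤ w p.1 := by
    intro p
    refine le_W p.1 _ fun i => ?_
    have := hδ0 i
    exact ((hcψB i) p).trans (by have := hA3 i; gcongr)
  have hQw : ∀ k, ∀ p : ℕ × ℕ, ‖Q k ψ p‖ ≤ max (2 * (1 / 2) ^ k) (1 / ((k:ℝ) + 1)) * w p.1 := by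
    intro k p
    set η : ℝ := max (2 * (1 / 2) ^ k) (1 / ((k:ℝ) + 1)) with hη
    have hη0 : 0 < η := lt_max_of_lt_left (by positivity)
    rw [mul_comm, ← div_le_iff₀ hη0]
    refine le_W p.1 _ fun i => ?_
    rw [div_le_iff₀ hη0]
    have := hδ0 i
    have := hA0 i
    rcases le_or_gt i k with hik | hik
    · have h1 := hψQ k p
      have h1' : ‖Q k ψ p‖ ≤ 2 * (1 / 2) ^ k * δ k ^ p.1 := h1
      calc ‖Q k ψ p‖ ≤ 2 * (1 / 2) ^ k * δ k ^ p.1 := h1'
        _ ≤ η * δ i ^ p.1 := by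
          have := hδ0 k
          have h3 := hδa hik
          gcongr
          exact le_max_left _ _
        _ = 1 * δ i ^ p.1 * η := by ring
        _ ≤ A i * δ i ^ p.1 * η := by
          gcongr
          exact hA1 i
    · have h1 := (hQG k).2 (δ i) (hδ0 i) (hδ1 i) _ _ (hcψB i) p
      calc ‖Q k ψ p‖ ≤ ((∑' n, ‖a n‖) ^ n k + MP k) * cψ i * δ i ^ p.1 := h1
        _ ≤ A i / (i + 1) * δ i ^ p.1 := by
          have := hA4 i k hik
          gcongr
        _ ≤ A i / (k + 1) * δ i ^ p.1 := by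
          gcongr
        _ = A i * δ i ^ p.1 * (1 / (k + 1)) := by ring
        _ ≤ A i * δ i ^ p.1 * η := by
          gcongr
          exact le_max_right _ _
  -- the operators
  have hanti : ∀ j m, w (j + m) ≤ w j := W_anti hδ0 hδ1 hA1
  have hrat : ∀ j m, |w (j + m) / w j| ≤ 1 := by
    intro j m
    rw [abs_of_pos (div_pos (hwpos _) (hwpos _)), div_le_one (hwpos _)]
    exact hanti j m
  have hrat' : ∀ p : ℕ × ℕ, ‖((w (p.1 + 1) / w p.1 : ℝ) : ℂ)‖ ≤ 1 := by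
    intro p
    rw [Complex.norm_real]
    exact hrat p.1 1
  have hι : ∀ p : ℕ × ℕ, ‖((w p.1 / w 0 : ℝ) : ℂ)‖ ≤ 1 := by
    intro p
    rw [Complex.norm_real]
    have := hrat 0 p.1
    rwa [zero_add] at this
  set AW : E →L[ℂ] E := Mop (fun p => ((w (p.1 + 1) / w p.1 : ℝ) : ℂ)) (fun p => (p.1 + 1, p.2))
    hrat' with hAW
  set ι : E →L[ℂ] E := Mop (fun p => ((w p.1 / w 0 : ℝ) : ℂ)) (fun p => p) hι with hιdef
  have hAWn : ‖AW‖ ≤ 1 := norm_Mop_le _ _ _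
  have hAWpow : ∀ (m : ℕ) (x : E) (p : ℕ × ℕ),
      (AW ^ m) x p = ((w (p.1 + m) / w p.1 : ℝ) : ℂ) * x (p.1 + m, p.2) := by
    intro m
    induction m with
    | zero =>
      intro x p
      rw [pow_zero, add_zero, div_self (hwpos p.1).ne']
      simp
    | succ m ih =>
      intro x p
      rw [pow_succ, mul_apply_eq_comp, ih, hAW, Mop_apply, ← mul_assoc, ← Complex.ofReal_mul]
      have h1 : w (p.1 + m) / w p.1 * (w (p.1 + m + 1) / w (p.1 + m)) =
          w (p.1 + (m + 1)) / w p.1 := by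
        have := (hwpos (p.1 + m)).ne'
        field_simp
        rfl
      simp only [h1]
      rfl
  have hinter : ι * AW = T * ι := by
    ext x p
    rw [mul_apply_eq_comp, mul_apply_eq_comp, T_apply]
    simp only [hιdef, hAW, Mop_apply]
    rw [← mul_assoc, ← Complex.ofReal_mul]
    congr 2
    have := (hwpos p.1).ne'
    field_simp
  have hιU : ι * U = U * ι := by
    ext x p
    rw [mul_apply_eq_comp, mul_apply_eq_comp, U_apply, hιdef, Mop_apply, Mop_apply, U_apply]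
  have hιinv : ∀ (x : E) (p : ℕ × ℕ), x p = ((w 0 / w p.1 : ℝ) : ℂ) * (ι x) p := by
    intro x p
    rw [hιdef, Mop_apply, ← mul_assoc, ← Complex.ofReal_mul]
    have h1 : w 0 / w p.1 * (w p.1 / w 0) = 1 := by
      have := (hwpos p.1).ne'
      have := (hwpos 0).ne'
      field_simp
    rw [h1]; simp
  have hιinj : ∀ x x' : E, ι x = ι x' → x = x' := by
    intro x x' hxx
    ext p
    rw [hιinv x p, hιinv x' p, hxx]
  let y : E := BoundedContinuousFunction.ofNormedAddCommGroupDiscrete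
    (fun p : ℕ × ℕ => ((w 0 / w p.1 : ℝ) : ℂ) * ψ p) (w 0) (by
      intro p
      rw [norm_mul, Complex.norm_real, Real.norm_of_nonneg (div_pos (hwpos _) (hwpos _)).le]
      have h1 := hwpos p.1
      have h0 := hwpos 0
      calc w 0 / w p.1 * ‖ψ p‖ ≤ w 0 / w p.1 * w p.1 := by
            gcongr
            exact hψw p
        _ = w 0 := by field_simp)
  have hιy : ι y = ψ := by
    ext p
    rw [hιdef, Mop_apply]
    change ((w p.1 / w 0 : ℝ) : ℂ) * (((w 0 / w p.1 : ℝ) : ℂ) * ψ p) = ψ p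
    rw [← mul_assoc, ← Complex.ofReal_mul]
    have h1 : w p.1 / w 0 * (w 0 / w p.1) = 1 := by
      have := (hwpos p.1).ne'
      have := (hwpos 0).ne'
      field_simp
    rw [h1]; simp
  refine ⟨AW, y, hAWn, ?_, ?_, ?_, ?_, ?_⟩
  · intro ρ hρ
    obtain ⟨i, hi⟩ := (hδt.eventually_lt_const hρ).exists
    refine ⟨A i / w 0, fun m => ?_⟩
    have h0 := hwpos 0
    have hAi := hA0 i
    have hδi := hδ0 i
    have h2 : ‖AW ^ m‖ ≤ w m / w 0 := by
      refine ContinuousLinearMap.opNorm_le_bound _ (div_pos (hwpos _) h0).le fun x => ?_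
      rw [BoundedContinuousFunction.norm_le (mul_nonneg (div_pos (hwpos _) h0).le (norm_nonneg _))]
      intro p
      rw [hAWpow, norm_mul, Complex.norm_real,
        Real.norm_of_nonneg (div_pos (hwpos _) (hwpos _)).le]
      have h3 : w (p.1 + m) / w p.1 ≤ w m / w 0 := by
        rw [div_le_div_iff₀ (hwpos _) h0]
        have := W_mul hδ0 hδ1 hδa hA1 hA2 p.1 m
        rw [← hw] at this
        linarith
      have h4 := x.norm_coe_le_norm (p.1 + m, p.2)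
      have h5 : 0 ≤ w m / w 0 := (div_pos (hwpos _) h0).le
      gcongr
    calc ‖AW ^ m‖ ≤ w m / w 0 := h2
      _ ≤ (A i * δ i ^ m) / w 0 := by
        gcongr
        exact W_le hδ0 hA1 i m
      _ = A i / w 0 * δ i ^ m := by ring
      _ ≤ A i / w 0 * ρ ^ m := by gcongr
  · intro hy
    have h1 : ψ = 0 := by rw [← hιy, hy, map_zero]
    rw [h1, zero_sub, norm_neg] at hψ0
    have h2 : ‖(V h (Finsupp.single z0 3)) (0, 0)‖ ≤ 2 :=
      (BoundedContinuousFunction.norm_coe_le_norm _ _).trans hψ0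
    unfold V at h2
    rw [Finsupp.linearCombination_single, BoundedContinuousFunction.coe_smul] at h2
    simp only [ev_apply (hΩ1 z0 hz0) (hh1' z0 hz0), pow_zero, mul_one, smul_eq_mul] at h2
    norm_num at h2
  · intro p ε hε
    have h0 := hwpos 0
    have hη : Tendsto (fun k : ℕ => max (2 * (1 / 2) ^ k) (1 / ((k:ℝ) + 1)) * w 0) atTop (𝓝 0) := by
      have h1 : Tendsto (fun k : ℕ => 2 * ((1:ℝ) / 2) ^ k) atTop (𝓝 0) := by
        simpa using (tendsto_pow_atTop_nhds_zero_of_lt_one (show (0:ℝ) ≤ 1 / 2 by norm_num)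
          (by norm_num)).const_mul 2
      have h2 : Tendsto (fun k : ℕ => 1 / ((k:ℝ) + 1)) atTop (𝓝 0) :=
        tendsto_one_div_add_atTop_nhds_zero_nat
      have h3 := (h1.max h2).mul_const (w 0)
      simpa using h3
    obtain ⟨N, hN⟩ := (hη.eventually_lt_const (show (0:ℝ) < ε / 2 by positivity)).exists_forall_of_atTop
    obtain ⟨k, hkN, hk⟩ := hpoly p (ε / 2 / (‖y‖ + 1)) (by positivity) N
    refine ⟨n k, ?_⟩
    have h1 : ‖((F a AW) ^ n k) y - Polynomial.aeval AW (poly k) y‖ ≤ ε / 2 := by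
      have hη' := (hN k hkN).le
      refine le_trans ?_ hη'
      have hmax0 : 0 ≤ max (2 * (1 / 2) ^ k) (1 / ((k:ℝ) + 1)) := le_max_of_le_left (by positivity)
      rw [BoundedContinuousFunction.norm_le (by positivity)]
      intro q
      have h2 : ι (((F a AW) ^ n k) y - Polynomial.aeval AW (poly k) y) = Q k ψ := by
        rw [map_sub, ← mul_apply_eq_comp, ← mul_apply_eq_comp,
          intertwine_pow (intertwine_F hinter hAWn norm_T_le ha), intertwine_aeval hinter,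
          mul_apply_eq_comp, mul_apply_eq_comp, hιy, hQ]
        rw [sub_apply]
      rw [hιinv, h2, norm_mul, Complex.norm_real,
        Real.norm_of_nonneg (div_pos (hwpos _) (hwpos _)).le]
      have h3 := hwpos q.1
      calc w 0 / w q.1 * ‖Q k ψ q‖
          ≤ w 0 / w q.1 * (max (2 * (1 / 2) ^ k) (1 / ((k:ℝ) + 1)) * w q.1) := by
            gcongr
            exact hQw k q
        _ = max (2 * (1 / 2) ^ k) (1 / ((k:ℝ) + 1)) * w 0 := by field_simp
    have h2 : ‖Polynomial.aeval AW p y - Polynomial.aeval AW (poly k) y‖ ≤ ε / 2 := by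
      rw [← sub_apply]
      calc ‖(Polynomial.aeval AW p - Polynomial.aeval AW (poly k)) y‖
          ≤ ‖Polynomial.aeval AW p - Polynomial.aeval AW (poly k)‖ * ‖y‖ :=
            ContinuousLinearMap.le_opNorm _ _
        _ ≤ (ε / 2 / (‖y‖ + 1)) * (‖y‖ + 1) := by
            gcongr
            · exact hk E AW hAWn
            · linarith
        _ = ε / 2 := by
            have : ‖y‖ + 1 ≠ 0 := by positivity
            field_simp
    calc ‖((F a AW) ^ n k) y - Polynomial.aeval AW p y‖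
        = ‖(((F a AW) ^ n k) y - Polynomial.aeval AW (poly k) y) -
            (Polynomial.aeval AW p y - Polynomial.aeval AW (poly k) y)‖ := by
          congr 1; abel
      _ ≤ ε / 2 + ε / 2 := (norm_sub_le _ _).trans (add_le_add h1 h2)
      _ = ε := by ring
  · -- commutation
    change AW * U = U * AW
    ext x p
    rw [mul_apply_eq_comp, mul_apply_eq_comp, U_apply, hAW, Mop_apply, Mop_apply, U_apply]
  · intro b d hb hd hbd
    apply hιinj
    rw [← mul_apply_eq_comp, intertwine_F hinter hAWn norm_T_le hb, mul_apply_eq_comp,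
      ← mul_apply_eq_comp ι U, hιU, mul_apply_eq_comp, hιy, ← mul_apply_eq_comp ι (F d AW),
      intertwine_F hinter hAWn norm_T_le hd, mul_apply_eq_comp, hιy]
    -- identity on `V h c`
    have h1 : ∀ k, F b T (U (V h (c k))) = F d T (V h (c k)) := by
      intro k
      have e1 := ((eig_F hb hΩ1 hh1').mul (eig_U hΩ1 hh1')).V (hc k)
      have e2 := (eig_F hd hΩ1 hh1').V (hc k)
      rw [mul_apply_eq_comp] at e1
      rw [e1, e2]
      congr 1
      ext μ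
      rw [mulc_apply, mulc_apply]
      by_cases hμ : μ ∈ (c k).support
      · rw [hbd μ (hc k hμ)]
      · rw [Finsupp.notMem_support_iff.1 hμ]; ring
    have h2 : Tendsto (fun k => F b T (U (V h (c k)))) atTop (𝓝 (F b T (U ψ))) :=
      (((F b T).continuous.comp U.continuous).tendsto ψ).comp hcψ
    have h3 : Tendsto (fun k => F d T (V h (c k))) atTop (𝓝 (F d T ψ)) :=
      ((F d T).continuous.tendsto ψ).comp hcψ
    simp_rw [h1] at h2
    exact tendsto_nhds_unique h2 h3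


theorem emb_pow {X Y : Type*} [NormedAddCommGroup X] [NormedSpace ℂ X] [NormedAddCommGroup Y]
    [NormedSpace ℂ Y] {J : X →L[ℂ] Y} {TX : X →L[ℂ] X} {A : Y →L[ℂ] Y}
    (hT : ∀ x, J (TX x) = A (J x)) (n : ℕ) (x : X) : J ((TX ^ n) x) = (A ^ n) (J x) := by
  induction n generalizing x with
  | zero => simp
  | succ n ih => rw [pow_succ', pow_succ', mul_apply_eq_comp, mul_apply_eq_comp, hT, ih]

theorem emb_F {X Y : Type*} [NormedAddCommGroup X] [NormedSpace ℂ X] [NormedAddCommGroup Y]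
    [NormedSpace ℂ Y] [CompleteSpace X] [CompleteSpace Y] {J : X →L[ℂ] Y} {TX : X →L[ℂ] X}
    {A : Y →L[ℂ] Y} (hT : ∀ x, J (TX x) = A (J x)) (hTX : ‖TX‖ ≤ 1) (hA : ‖A‖ ≤ 1) {b : ℕ → ℂ}
    (hb : Summable fun n => ‖b n‖) (x : X) : J (F b TX x) = F b A (J x) := by
  have h1 := J.hasSum (F_apply hb hTX x)
  have h2 := F_apply hb hA (J x)
  have h3 : ∀ n, J (b n • (TX ^ n) x) = b n • (A ^ n) (J x) := by
    intro n
    rw [map_smul, emb_pow hT]
  simp_rw [h3] at h1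
  exact h1.unique h2

theorem emb_norm_pow {X Y : Type*} [NormedAddCommGroup X] [NormedSpace ℂ X] [NormedAddCommGroup Y]
    [NormedSpace ℂ Y] {J : X →L[ℂ] Y} {TX : X →L[ℂ] X} {A : Y →L[ℂ] Y}
    (hJ : ∀ x, ‖J x‖ = ‖x‖) (hT : ∀ x, J (TX x) = A (J x)) (n : ℕ) : ‖TX ^ n‖ ≤ ‖A ^ n‖ := by
  refine ContinuousLinearMap.opNorm_le_bound _ (norm_nonneg _) fun x => ?_
  rw [← hJ, ← hJ x, emb_pow hT]
  exact (A ^ n).le_opNorm _

theorem spectrum_zero {X : Type*} [NormedAddCommGroup X] [NormedSpace ℂ X] [CompleteSpace X]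
    [Nontrivial X] (TX : X →L[ℂ] X)
    (hq : ∀ ρ : ℝ, 0 < ρ → ∃ C, ∀ n : ℕ, ‖TX ^ n‖ ≤ C * ρ ^ n) : spectrum ℂ TX = {0} := by
  have h1 : spectrum ℂ TX ⊆ {0} := by
    intro z hz
    rw [Set.mem_singleton_iff]
    by_contra hz0
    have hzn : 0 < ‖z‖ := norm_pos_iff.2 hz0
    obtain ⟨C, hC⟩ := hq (‖z‖ / 2) (by positivity)
    have h3 : ∀ n : ℕ, (1:ℝ) ≤ C * (1 / 2) ^ n := by
      intro n
      have h3 := spectrum.norm_le_norm_of_mem (spectrum.pow_mem_pow TX n hz)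
      rw [norm_pow] at h3
      have h4 := h3.trans (hC n)
      rw [div_pow, ← mul_div_assoc, le_div_iff₀ (by positivity)] at h4
      rw [div_pow, one_pow, ← mul_div_assoc, le_div_iff₀ (by positivity)]
      have h5 : 0 < ‖z‖ ^ n := by positivity
      have h6 : ‖z‖ ^ n * (1 * 2 ^ n) ≤ ‖z‖ ^ n * (C * 1) := by linarith
      exact le_of_mul_le_mul_left h6 h5
    have h4 : Tendsto (fun n : ℕ => C * (1 / 2 : ℝ) ^ n) atTop (𝓝 (C * 0)) :=
      (tendsto_pow_atTop_nhds_zero_of_lt_one (by norm_num) (by norm_num)).const_mul _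
    have h5 := ge_of_tendsto' h4 h3
    linarith
  refine Set.Subset.antisymm h1 ?_
  obtain ⟨z, hz⟩ := spectrum.nonempty TX
  have := h1 hz
  rw [Set.mem_singleton_iff] at this
  rw [Set.singleton_subset_iff]
  rwa [this] at hz

/-- A bounded orbit is not dense. -/
theorem not_hypercyclic_of_bounded {X : Type*} [NormedAddCommGroup X] [NormedSpace ℂ X]
    [Nontrivial X] (S : X →L[ℂ] X) (h : ∀ x, ‖S x‖ ≤ ‖x‖) : ¬ IsHypercyclic S := by
  rintro ⟨x, hx⟩
  have h1 : ∀ n : ℕ, ‖(S ^ n) x‖ ≤ ‖x‖ := by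
    intro n
    induction n with
    | zero => simp
    | succ n ih =>
      rw [pow_succ', mul_apply_eq_comp]
      exact (h _).trans ih
  obtain ⟨z, hz⟩ := exists_ne (0 : X)
  obtain ⟨c, hc⟩ : ∃ c : ℝ, ‖x‖ + 1 < c * ‖z‖ := by
    refine ⟨(‖x‖ + 2) / ‖z‖, ?_⟩
    rw [div_mul_cancel₀ _ (norm_ne_zero_iff.2 hz)]
    linarith
  obtain ⟨w, hw, n, rfl⟩ := Metric.dense_iff.1 hx ((c : ℂ) • z) 1 one_pos
  rw [Metric.mem_ball, dist_eq_norm] at hw
  have h2 : ‖(c : ℂ) • z‖ ≤ ‖(S ^ n) x‖ + ‖(S ^ n) x - (c : ℂ) • z‖ := by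
    have := norm_sub_norm_le ((c : ℂ) • z) ((S ^ n) x)
    rw [norm_sub_rev] at this
    linarith
  rw [norm_smul, Complex.norm_real] at h2
  have h3 : c * ‖z‖ ≤ ‖c‖ * ‖z‖ := by
    gcongr
    exact Real.le_norm_self c
  have := h1 n
  simp only at hw
  linarith

/-- Passing from the big space to the cyclic subspace: the abstract part. -/
theorem assemble_abs {X : Type} [NormedAddCommGroup X] [NormedSpace ℂ X] [CompleteSpace X]
    (J : X →L[ℂ] E) (hJ : ∀ x, ‖J x‖ = ‖x‖) (TX : X →L[ℂ] X) (A : E →L[ℂ] E)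
    (hT : ∀ x, J (TX x) = A (J x)) (hA : ‖A‖ ≤ 1)
    (hq : ∀ ρ : ℝ, 0 < ρ → ∃ C, ∀ n : ℕ, ‖A ^ n‖ ≤ C * ρ ^ n) (y : X) (hy : y ≠ 0)
    (hdense : ∀ x : X, ∀ ε : ℝ, 0 < ε → ∃ p : Polynomial ℂ,
      ‖J x - Polynomial.aeval A p (J y)‖ < ε)
    (a : ℕ → ℂ) (ha : Summable fun n => ‖a n‖)
    (hHC : ∀ (p : Polynomial ℂ) (ε : ℝ), 0 < ε →
        ∃ n : ℕ, ‖((F a A) ^ n) (J y) - Polynomial.aeval A p (J y)‖ ≤ ε) (hcomm : Commute A U) :
    spectrum ℂ TX = {0} ∧ IsHypercyclic (F a TX) ∧ Nontrivial X ∧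
      (∀ b : ℕ → ℂ, (Summable fun n => ‖b n‖) → ∀ x : X, J (F b TX x) = F b A (J x)) ∧
      ∀ b d : ℕ → ℂ, (Summable fun n => ‖b n‖) → (Summable fun n => ‖d n‖) →
        F b A (U (J y)) = F d A (J y) → ∀ x : X, F b A (U (J x)) = F d A (J x) := by
  have hnt : Nontrivial X := ⟨⟨y, 0, hy⟩⟩
  have hTXn : ∀ n : ℕ, ‖TX ^ n‖ ≤ ‖A ^ n‖ := emb_norm_pow hJ hT
  have hTX1 : ‖TX‖ ≤ 1 := by
    have := hTXn 1
    rw [pow_one, pow_one] at this
    exact this.trans hA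
  refine ⟨?_, ?_, hnt, fun b hb x => emb_F hT hTX1 hA hb x, ?_⟩
  · refine spectrum_zero TX fun ρ hρ => ?_
    obtain ⟨C, hC⟩ := hq ρ hρ
    exact ⟨C, fun n => (hTXn n).trans (hC n)⟩
  · refine ⟨y, ?_⟩
    rw [Metric.dense_iff]
    intro x r hr
    obtain ⟨p, hp⟩ := hdense x (r / 2) (by positivity)
    obtain ⟨n, hn⟩ := hHC p (r / 3) (by positivity)
    refine ⟨(F a TX ^ n) y, ?_, ⟨n, rfl⟩⟩
    rw [Metric.mem_ball, dist_eq_norm, ← hJ, map_sub, emb_pow (emb_F hT hTX1 hA ha)]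
    have h1 : (F a A ^ n) (J y) - J x = ((F a A ^ n) (J y) - Polynomial.aeval A p (J y)) -
        (J x - Polynomial.aeval A p (J y)) := by abel
    rw [h1]
    refine (norm_sub_le _ _).trans_lt ?_
    linarith
  · intro b d hb hd hbd
    have hAU : ∀ x : E, A (U x) = U (A x) := fun x => by
      rw [← mul_apply_eq_comp, hcomm.eq, mul_apply_eq_comp]
    have hFA : ∀ (b : ℕ → ℂ), (Summable fun n => ‖b n‖) → ∀ x : E, F b A (A x) = A (F b A x) := by
      intro b hb x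
      have := intertwine_F (ι := A) (A := A) (A' := A) rfl hA hA hb
      rw [← mul_apply_eq_comp, ← this, mul_apply_eq_comp]
    -- the set where the identity holds is a closed submodule
    let L : Submodule ℂ E := LinearMap.eqLocus ((F b A).comp U).toLinearMap (F d A).toLinearMap
    have hLmem : ∀ x : E, x ∈ L ↔ F b A (U x) = F d A x := fun x => Iff.rfl
    have hLc : IsClosed (L : Set E) := isClosed_eq ((F b A).comp U).continuous (F d A).continuous
    have hpow : ∀ n : ℕ, (A ^ n) (J y) ∈ L := by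
      intro n
      rw [hLmem]
      induction n with
      | zero => simpa using hbd
      | succ n ih =>
        rw [pow_succ', mul_apply_eq_comp, ← hAU, hFA b hb, ih, hFA d hd]
    have hpol : ∀ p : Polynomial ℂ, Polynomial.aeval A p (J y) ∈ L := by
      intro p
      rw [Polynomial.aeval_eq_sum_range, sum_apply]
      exact Submodule.sum_mem _ fun i _ => Submodule.smul_mem _ _ (hpow i)
    intro x
    rw [← hLmem]
    have h2 : J x ∈ closure (L : Set E) := by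
      rw [Metric.mem_closure_iff]
      intro ε hε
      obtain ⟨p, hp⟩ := hdense x ε hε
      exact ⟨_, hpol p, by rwa [dist_eq_norm]⟩
    rwa [hLc.closure_eq] at h2

/-- Passing from the big space to the cyclic subspace. -/
theorem assemble (A : E →L[ℂ] E) (y : E) (hA : ‖A‖ ≤ 1)
    (hq : ∀ ρ : ℝ, 0 < ρ → ∃ C, ∀ n : ℕ, ‖A ^ n‖ ≤ C * ρ ^ n) (hy : y ≠ 0)
    (a : ℕ → ℂ) (ha : Summable fun n => ‖a n‖)
    (hHC : ∀ (p : Polynomial ℂ) (ε : ℝ), 0 < ε →
        ∃ n : ℕ, ‖((F a A) ^ n) y - Polynomial.aeval A p y‖ ≤ ε) (hcomm : Commute A U) :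
    ∃ (X : Type) (_ : NormedAddCommGroup X) (_ : NormedSpace ℂ X) (_ : CompleteSpace X)
      (TX : X →L[ℂ] X) (J : X →L[ℂ] E), (∀ x, ‖J x‖ = ‖x‖) ∧ spectrum ℂ TX = {0} ∧
      IsHypercyclic (F a TX) ∧ Nontrivial X ∧
      (∀ b : ℕ → ℂ, (Summable fun n => ‖b n‖) → ∀ x : X, J (F b TX x) = F b A (J x)) ∧
      ∀ b d : ℕ → ℂ, (Summable fun n => ‖b n‖) → (Summable fun n => ‖d n‖) →
        F b A (U y) = F d A y → ∀ x : X, F b A (U (J x)) = F d A (J x) := by
  set K : Submodule ℂ E := Submodule.span ℂ (Set.range fun n : ℕ => (A ^ n) y) with hK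
  set X : Submodule ℂ E := K.topologicalClosure with hX
  have hXc : IsClosed (X : Set E) := K.isClosed_topologicalClosure
  have hXcomp : CompleteSpace X := hXc.completeSpace_coe
  have hAK : ∀ x ∈ K, A x ∈ K := by
    intro x hx
    induction hx using Submodule.span_induction with
    | mem x hx =>
      obtain ⟨n, rfl⟩ := hx
      apply Submodule.subset_span
      exact ⟨n + 1, by simp only [pow_succ']; rfl⟩
    | zero => rw [map_zero]; exact Submodule.zero_mem _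
    | add x z _ _ hx hz => rw [map_add]; exact Submodule.add_mem _ hx hz
    | smul c x _ hx => rw [map_smul]; exact Submodule.smul_mem _ _ hx
  have hAX : ∀ x ∈ X, A x ∈ X := by
    intro x hx
    exact map_mem_closure A.continuous hx (fun z hz => hAK z hz)
  have hyK : y ∈ K := Submodule.subset_span ⟨0, by simp⟩
  have hyX : y ∈ X := K.le_topologicalClosure hyK
  have hpK : ∀ x' ∈ K, ∃ p : Polynomial ℂ, Polynomial.aeval A p y = x' := by
    intro x' hx'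
    induction hx' using Submodule.span_induction with
    | mem x hx =>
      obtain ⟨n, rfl⟩ := hx
      exact ⟨Polynomial.X ^ n, by rw [map_pow, Polynomial.aeval_X]⟩
    | zero => exact ⟨0, by rw [map_zero]; rfl⟩
    | add x z _ _ hx hz =>
      obtain ⟨p, rfl⟩ := hx
      obtain ⟨q, rfl⟩ := hz
      exact ⟨p + q, by rw [map_add]; rfl⟩
    | smul c x _ hx =>
      obtain ⟨p, rfl⟩ := hx
      exact ⟨c • p, by rw [map_smul]; rfl⟩
  have hdense : ∀ x : X, ∀ ε : ℝ, 0 < ε → ∃ p : Polynomial ℂ,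
      ‖(x : E) - Polynomial.aeval A p y‖ < ε := by
    intro x ε hε
    obtain ⟨x', hx', hxx'⟩ := Metric.mem_closure_iff.1 x.2 ε hε
    obtain ⟨p, rfl⟩ := hpK x' hx'
    exact ⟨p, by rwa [← dist_eq_norm]⟩
  have := assemble_abs (X := X) X.subtypeL (fun x => rfl) (A.restrict hAX) A (fun x => rfl) hA hq
    ⟨y, hyX⟩ (fun h => hy (congrArg Subtype.val h)) hdense a ha hHC hcomm
  exact ⟨X, inferInstance, inferInstance, hXcomp, A.restrict hAX, X.subtypeL, fun x => rfl, this⟩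

/-- **Main theorem.** There is a quasinilpotent operator `T` on a complex Banach space such that
`1 + T` is hypercyclic while `exp T` is not. -/
theorem result : ∃ (X : Type) (_ : NormedAddCommGroup X) (_ : NormedSpace ℂ X)
    (_ : CompleteSpace X) (T : X →L[ℂ] X), spectrum ℂ T = {0} ∧ IsHypercyclic (1 + T) ∧
      ¬ IsHypercyclic (NormedSpace.exp T) := by
  classical
  set δ : ℕ → ℝ := fun k => 1 / ((k : ℝ) + 1) with hδ
  have hδ0 : ∀ k, 0 < δ k := fun k => by rw [hδ]; positivity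
  have hδ1 : ∀ k, δ k ≤ 1 := by
    intro k
    simp only [hδ]
    rw [div_le_one (by positivity)]
    have : (0:ℝ) ≤ k := Nat.cast_nonneg k
    linarith
  have hδa : Antitone δ := by
    intro k l hkl
    simp only [hδ]
    gcongr
  have hδt : Tendsto δ atTop (𝓝 0) := tendsto_one_div_add_atTop_nhds_zero_nat
  set Ω : ℕ → Set ℂ := fun k => Metric.ball 0 (δ k) ∩ {z | z.re < 0} with hΩ
  have hre : IsOpen {z : ℂ | z.re < 0} := isOpen_lt Complex.continuous_re continuous_const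
  have hΩo : ∀ k, IsOpen (Ω k) := fun k => Metric.isOpen_ball.inter hre
  have hΩc : ∀ k, IsPreconnected (Ω k) := by
    intro k
    apply Convex.isPreconnected
    exact (convex_ball 0 _).inter (convex_halfSpace_re_lt 0)
  have hΩδ : ∀ k, ∀ z ∈ Ω k, ‖z‖ < δ k := by
    intro k z hz
    simpa using hz.1
  have hΩs : ∀ k, Ω (k + 1) ⊆ Ω k := by
    intro k z hz
    exact ⟨Metric.ball_subset_ball (hδa (Nat.le_succ k)) hz.1, hz.2⟩
  set a : ℕ → ℂ := fun n => if n < 2 then 1 else 0 with ha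
  have hafin : ∀ n ∉ Finset.range 2, a n = 0 := by
    intro n hn
    rw [Finset.mem_range] at hn
    simp only [ha]
    rw [if_neg hn]
  have hasum : Summable fun n => ‖a n‖ := by
    refine summable_of_ne_finset_zero (s := Finset.range 2) fun n hn => ?_
    rw [hafin n hn, norm_zero]
  have haf : ∀ z : ℂ, ∑' n, a n * z ^ n = 1 + z := by
    intro z
    rw [tsum_eq_sum (s := Finset.range 2) (fun n hn => by rw [hafin n hn, zero_mul])]
    simp [ha, Finset.sum_range_succ]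
  have hf1 : ∀ k, ∃ z ∈ Ω k, ‖∑' n, a n * z ^ n‖ < 1 := by
    intro k
    have h0 := hδ0 k
    have h1 := hδ1 k
    refine ⟨((-(δ k / 2) : ℝ) : ℂ), ⟨?_, ?_⟩, ?_⟩
    · rw [Metric.mem_ball, dist_zero_right, Complex.norm_real, norm_neg,
        Real.norm_of_nonneg (by positivity)]
      linarith
    · change ((-(δ k / 2) : ℝ) : ℂ).re < 0
      rw [Complex.ofReal_re]; linarith
    · rw [haf, ← Complex.ofReal_one, ← Complex.ofReal_add, Complex.norm_real,
        Real.norm_of_nonneg (by linarith)]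
      linarith
  have hf2 : ∀ k, ∃ z ∈ Ω k, 1 < ‖∑' n, a n * z ^ n‖ := by
    intro k
    have h0 := hδ0 k
    have h1 := hδ1 k
    set s : ℝ := δ k / 2 with hs
    have hs0 : 0 < s := by positivity
    have hs1 : s ≤ 1 / 2 := by linarith
    have hs2 : s ^ 2 ≤ 1 / 4 := by nlinarith
    have hs3 : 0 < s ^ 2 := by positivity
    refine ⟨⟨-(s ^ 2 / 4), s⟩, ⟨?_, ?_⟩, ?_⟩
    · rw [Metric.mem_ball, dist_zero_right]
      have h2 : ‖(⟨-(s ^ 2 / 4), s⟩ : ℂ)‖ ^ 2 < (δ k) ^ 2 := by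
        rw [← Complex.normSq_eq_norm_sq, Complex.normSq_mk]
        have : δ k = 2 * s := by rw [hs]; ring
        rw [this]
        nlinarith
      exact lt_of_pow_lt_pow_left₀ 2 h0.le h2
    · change -(s ^ 2 / 4) < 0
      linarith
    · rw [haf]
      have h2 : 1 ^ 2 < ‖(1 : ℂ) + ⟨-(s ^ 2 / 4), s⟩‖ ^ 2 := by
        rw [← Complex.normSq_eq_norm_sq, Complex.normSq_apply]
        simp only [Complex.add_re, Complex.one_re, Complex.add_im, Complex.one_im]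
        nlinarith
      exact lt_of_pow_lt_pow_left₀ 2 (norm_nonneg _) h2
  obtain ⟨A, y, hA, hq, hy, hHC, hcomm, hrel⟩ := core δ hδ0 hδ1 hδa hδt Ω hΩo hΩc hΩδ hΩs
    Complex.exp Complex.differentiable_exp.differentiableOn (by
      intro z hz
      rw [Complex.norm_exp, Real.exp_lt_one_iff]
      exact hz.2) a hasum hf1 hf2
  obtain ⟨X, i1, i2, i3, TX, J, hJ, hspec, hHCX, hnt, hFX, hrelX⟩ :=
    assemble A y hA hq hy a hasum hHC hcomm
  refine ⟨X, i1, i2, i3, TX, hspec, ?_, ?_⟩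
  · have h1 : F a TX = 1 + TX := by
      unfold F
      rw [tsum_eq_sum (s := Finset.range 2) (fun n hn => by rw [hafin n hn, zero_smul])]
      simp [ha, Finset.sum_range_succ]
    rwa [h1] at hHCX
  · apply not_hypercyclic_of_bounded
    intro x
    set b : ℕ → ℂ := fun n => if n = 0 then 1 else 0 with hb
    set d : ℕ → ℂ := fun n => ((n.factorial : ℂ))⁻¹ with hd
    have hbfin : ∀ n ∉ Finset.range 1, b n = 0 := by
      intro n hn
      rw [Finset.mem_range] at hn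
      have : n ≠ 0 := by omega
      simp [hb, this]
    have hbs : Summable fun n => ‖b n‖ := by
      refine summable_of_ne_finset_zero (s := Finset.range 1) fun n hn => ?_
      rw [hbfin n hn, norm_zero]
    have hds : Summable fun n => ‖d n‖ := by
      have := Real.summable_pow_div_factorial 1
      refine this.congr fun n => ?_
      simp [hd]
    have h1 : F b A (U y) = F d A y := by
      apply hrel b d hbs hds
      intro μ _
      rw [tsum_eq_sum (s := Finset.range 1) (fun n hn => by rw [hbfin n hn, zero_mul])]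
      rw [Complex.exp_eq_exp_ℂ, NormedSpace.exp_eq_tsum ℂ]
      simp [hb, hd]
    have h2 := hrelX b d hbs hds h1 x
    have h3 : F b A = 1 := by
      unfold F
      rw [tsum_eq_sum (s := Finset.range 1) (fun n hn => by rw [hbfin n hn, zero_smul])]
      simp [hb]
    have h4 : NormedSpace.exp TX = F d TX := by
      rw [NormedSpace.exp_eq_tsum ℂ]
      rfl
    rw [h3] at h2
    have h5 : J (NormedSpace.exp TX x) = U (J x) := by
      rw [h4, hFX d hds, ← h2]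
      rfl
    rw [← hJ, h5, ← hJ x]
    calc ‖U (J x)‖ ≤ ‖U‖ * ‖J x‖ := U.le_opNorm _
      _ ≤ 1 * ‖J x‖ := by
        gcongr
        exact norm_Mop_le _ _ _
      _ = _ := one_mul _

end Pool.Agent.Results.MP_2949c4_an.ExpCounterexample
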